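import Pool.Agent.H.MP_0427c5_lc.fm.Mom
import Pool.Agent.H.MP_0427c5_lc.fm.HDefs

/-!
# 3SUM-Indexing with multiplications and hash functions: the classes
-/

set_option autoImplicit false

namespace GFM

open Finset

section classes

variable {K W : Type} [Field K] [Fintype K] [Fintype W]

open scoped Classical in
/-- the yes instances with hash value `w`, if `w` is good -/
noncomputable def yesC (h : K → W) (B : Finset K) (G : W → Prop) (w : W) : Finset K :=
  B.filter fun z => h z = w ∧ G w

open scoped Classical in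
/-- the no instances with hash value `w` -/
noncomputable def noC (h : K → W) (B : Finset K) (w : W) : Finset K :=
  univ.filter fun x => x ∉ B ∧ h x = w

open scoped Classical in
/-- the yes instances whose hash value is not good -/
noncomputable def badC (h : K → W) (B : Finset K) (G : W → Prop) : Finset K :=
  B.filter fun z => ¬ G (h z)

theorem mem_yesC {h : K → W} {B : Finset K} {G : W → Prop} {w : W} {z : K} :
    z ∈ yesC h B G w ↔ z ∈ B ∧ h z = w ∧ G w := by
  classical
  unfold yesC
  exact Finset.mem_filter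

theorem mem_noC {h : K → W} {B : Finset K} {w : W} {x : K} :
    x ∈ noC h B w ↔ x ∉ B ∧ h x = w := by
  classical
  unfold noC
  rw [Finset.mem_filter]
  exact and_iff_right (Finset.mem_univ _)

theorem mem_badC {h : K → W} {B : Finset K} {G : W → Prop} {z : K} :
    z ∈ badC h B G ↔ z ∈ B ∧ ¬ G (h z) := by
  classical
  unfold badC
  exact Finset.mem_filter

open scoped Classical in
theorem sum_yesC (h : K → W) (B : Finset K) (G : W → Prop) :
    ∑ w, (yesC h B G w).card = (B.filter fun z => G (h z)).card := by
  rw [Finset.card_eq_sum_card_fiberwise (s := B.filter fun z => G (h z)) (t := univ) (f := h)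
    fun z _ => Finset.mem_coe.mpr (Finset.mem_univ _)]
  refine Finset.sum_congr rfl fun w _ => ?_
  congr 1
  ext z
  unfold yesC
  simp only [Finset.mem_filter]
  constructor
  · rintro ⟨h1, h2, h3⟩
    exact ⟨⟨h1, h2 ▸ h3⟩, h2⟩
  · rintro ⟨⟨h1, h3⟩, h2⟩
    exact ⟨h1, h2, h2 ▸ h3⟩

theorem sum_yesC_add (h : K → W) (B : Finset K) (G : W → Prop) :
    ∑ w, (yesC h B G w).card + (badC h B G).card = B.card := by
  classical
  rw [sum_yesC]
  unfold badC
  exact Finset.card_filter_add_card_filter_not (s := B) fun z => G (h z)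

/-- one class -/
theorem class_err (h : K → W) [DecidableEq K] [DecidableEq W] (R : W → Alg K) (σ : Equiv.Perm K)
    (T : ℕ) (B : Finset K) (G : W → Prop) (w : W)
    (hN : (yesC h B G w).Nonempty → (noC h B w).Nonempty) :
    ∑ z ∈ yesC h B G w, (1 - ((if run (R (h z)) σ T z = true then (0 : ℝ) else 1) +
      (((others h B z).filter fun x => run (R (h z)) σ T x = true).card : ℝ) /
        (others h B z).card) / 2) =
      (yesC h B G w).card * hitN (R w) σ T (yesC h B G w) (noC h B w) := by
  rcases (yesC h B G w).eq_empty_or_nonempty with hE | hE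
  · rw [hE]
    simp
  have hN0 : (0 : ℝ) < (noC h B w).card := by exact_mod_cast Finset.card_pos.mpr (hN hE)
  have hY0 : (0 : ℝ) < (yesC h B G w).card := by exact_mod_cast Finset.card_pos.mpr hE
  have hoth : ∀ z ∈ yesC h B G w, h z = w ∧ others h B z = noC h B w := by
    intro z hz
    rw [mem_yesC] at hz
    refine ⟨hz.2.1, ?_⟩
    ext x
    rw [mem_noC]
    unfold others
    rw [Finset.mem_filter, hz.2.1]
    exact and_iff_right (Finset.mem_univ _)
  have h1 : ∀ z ∈ yesC h B G w, (1 - ((if run (R (h z)) σ T z = true then (0 : ℝ) else 1) +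
      (((others h B z).filter fun x => run (R (h z)) σ T x = true).card : ℝ) /
        (others h B z).card) / 2) =
      (if run (R w) σ T z = true then (1 : ℝ) else 0) / 2 +
        (((noC h B w).filter fun x => run (R w) σ T x = false).card : ℝ) / (noC h B w).card / 2 := by
    intro z hz
    obtain ⟨e1, e2⟩ := hoth z hz
    rw [e1, e2]
    have h2 : ((noC h B w).filter fun x => run (R w) σ T x = true).card +
        ((noC h B w).filter fun x => run (R w) σ T x = false).card = (noC h B w).card := by
      have h3 : ((noC h B w).filter fun x => run (R w) σ T x = false) =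
          (noC h B w).filter fun x => ¬ (run (R w) σ T x = true) := by
        refine Finset.filter_congr fun x _ => ?_
        simp
      rw [h3]
      exact Finset.card_filter_add_card_filter_not _
    have h3 : (((noC h B w).filter fun x => run (R w) σ T x = true).card : ℝ) /
        (noC h B w).card =
        1 - (((noC h B w).filter fun x => run (R w) σ T x = false).card : ℝ) /
          (noC h B w).card := by
      rw [eq_sub_iff_add_eq, ← add_div, div_eq_one_iff_eq hN0.ne']
      exact_mod_cast h2
    rw [h3]
    split_ifs <;> ring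
  rw [Finset.sum_congr rfl h1, Finset.sum_add_distrib, Finset.sum_const, nsmul_eq_mul,
    ← Finset.sum_div, Finset.sum_boole]
  unfold hitN
  field_simp

theorem err_le (h : K → W) [DecidableEq K] [DecidableEq W] (R : W → Alg K) (σ : Equiv.Perm K)
    (T : ℕ) (B : Finset K) (G : W → Prop)
    (hN : ∀ w, (yesC h B G w).Nonempty → (noC h B w).Nonempty) :
    (B.card : ℝ) * (1 - hashErr h R σ T B) ≤
      B.card * hitF R σ T (yesC h B G) (noC h B) + (badC h B G).card := by
  classical
  rcases Nat.eq_zero_or_pos B.card with hB | hB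
  · rw [hB, Nat.cast_zero, zero_mul, zero_mul, zero_add]
    exact Nat.cast_nonneg _
  have hB0 : (0 : ℝ) < B.card := by exact_mod_cast hB
  obtain ⟨f, hf⟩ : ∃ f : K → ℝ, f = fun z => (1 - ((if run (R (h z)) σ T z = true then (0 : ℝ) else 1) +
      (((others h B z).filter fun x => run (R (h z)) σ T x = true).card : ℝ) /
        (others h B z).card) / 2) := ⟨_, rfl⟩
  have h1 : (B.card : ℝ) * (1 - hashErr h R σ T B) = ∑ z ∈ B, f z := by
    rw [hf]
    unfold hashErr
    rw [Finset.sum_sub_distrib, Finset.sum_const, nsmul_eq_mul, mul_one, ← Finset.sum_div]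
    field_simp
  have h2 : ∀ z, f z ≤ 1 := by
    intro z
    rw [hf]
    have h3 : (0 : ℝ) ≤ (if run (R (h z)) σ T z = true then (0 : ℝ) else 1) := by
      split_ifs <;> norm_num
    have h4 : (0 : ℝ) ≤ (((others h B z).filter fun x => run (R (h z)) σ T x = true).card : ℝ) /
        (others h B z).card := div_nonneg (Nat.cast_nonneg _) (Nat.cast_nonneg _)
    simp only
    linarith
  have h3 : ∑ z ∈ B, f z = ∑ z ∈ B.filter (fun z => G (h z)), f z + ∑ z ∈ badC h B G, f z := by
    unfold badC
    exact (Finset.sum_filter_add_sum_filter_not B (fun z => G (h z)) f).symm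
  have h4 : ∑ z ∈ badC h B G, f z ≤ (badC h B G).card := by
    calc ∑ z ∈ badC h B G, f z ≤ ∑ _z ∈ badC h B G, (1 : ℝ) := Finset.sum_le_sum fun z _ => h2 z
      _ = _ := by rw [Finset.sum_const, nsmul_eq_mul, mul_one]
  have h5 : ∑ z ∈ B.filter (fun z => G (h z)), f z =
      ∑ w, ((yesC h B G w).card : ℝ) * hitN (R w) σ T (yesC h B G w) (noC h B w) := by
    rw [← Finset.sum_fiberwise (s := B.filter fun z => G (h z)) (g := h) (f := f)]
    refine Finset.sum_congr rfl fun w _ => ?_
    rw [← class_err h R σ T B G w (hN w), hf]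
    refine Finset.sum_congr ?_ fun _ _ => rfl
    ext z
    unfold yesC
    simp only [Finset.mem_filter]
    constructor
    · rintro ⟨⟨h1, h3⟩, h2⟩
      exact ⟨h1, h2, h2 ▸ h3⟩
    · rintro ⟨h1, h2, h3⟩
      exact ⟨⟨h1, h2 ▸ h3⟩, h2⟩
  have h6 : ∑ w, ((yesC h B G w).card : ℝ) * hitN (R w) σ T (yesC h B G w) (noC h B w) ≤
      B.card * hitF R σ T (yesC h B G) (noC h B) := by
    have hle : ∑ w, ((yesC h B G w).card : ℝ) ≤ B.card := by
      have := sum_yesC_add h B G
      have h7 : ∑ w, (yesC h B G w).card ≤ B.card := by omega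
      exact_mod_cast h7
    rcases (Finset.sum_nonneg fun w _ => Nat.cast_nonneg ((yesC h B G w).card) :
      (0 : ℝ) ≤ ∑ w, ((yesC h B G w).card : ℝ)).eq_or_lt with h7 | h7
    · have h8 : ∀ w ∈ univ, ((yesC h B G w).card : ℝ) = 0 :=
        (Finset.sum_eq_zero_iff_of_nonneg fun w _ => Nat.cast_nonneg _).1 h7.symm
      rw [Finset.sum_eq_zero fun w hw => by rw [h8 w hw, zero_mul]]
      exact mul_nonneg hB0.le (hitF_nonneg _ _ _ _ _)
    · calc _ = (∑ w, ((yesC h B G w).card : ℝ)) * hitF R σ T (yesC h B G) (noC h B) := by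
            unfold hitF
            rw [mul_div_cancel₀ _ h7.ne']
        _ ≤ _ := mul_le_mul_of_nonneg_right hle (hitF_nonneg _ _ _ _ _)
  rw [h1, h3, h5]
  linarith

theorem hashErr_nonneg (h : K → W) [DecidableEq K] [DecidableEq W] (R : W → Alg K)
    (σ : Equiv.Perm K) (T : ℕ) (B : Finset K) : 0 ≤ hashErr h R σ T B := by
  unfold hashErr
  refine div_nonneg (Finset.sum_nonneg fun z _ => add_nonneg ?_
    (div_nonneg (Nat.cast_nonneg _) (Nat.cast_nonneg _))) (by positivity)
  split_ifs <;> norm_num

end classes

end GFM
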