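import Pool.Agent.H.MP_0427c5_lc.fm.Thm
import Pool.Agent.H.MP_0427c5_lc.hf.Defs

/-!
# 3SUM-Indexing: the generic group model is the part of degree one of the ring model
-/

set_option autoImplicit false

namespace GFM

open Finset

variable {K : Type} [Field K]

/-- a generic group algorithm as an algorithm without multiplications -/
def ofGroup (R : GGM3.Alg K) : Alg K where
  next := fun ζ l => ⟨(R.next ζ l).u, (R.next ζ l).v, 0, (R.next ζ l).c, (R.next ζ l).d, (R.next ζ l).e⟩
  out := R.out

theorem answers_ofGroup (R : GGM3.Alg K) (σ : Equiv.Perm K) (ζ : K) (t : ℕ) :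
    answers (ofGroup R) σ ζ t = GGM3.answers R σ ζ t := by
  induction t with
  | zero => rfl
  | succ t ih =>
    rw [answers, GGM3.answers, ih]
    congr 1
    unfold reply GGM3.reply ofGroup
    simp only [zero_mul, zero_add]

theorem run_ofGroup (R : GGM3.Alg K) (σ : Equiv.Perm K) (T : ℕ) (z : K) :
    run (ofGroup R) σ T z = GGM3.run R σ T z := by
  unfold run GGM3.run
  rw [answers_ofGroup]
  rfl

theorem degs_ofGroup [DecidableEq K] (R : GGM3.Alg K) (ζ : K) (l : List K) :
    ∀ q ∈ degs (ofGroup R) ζ l, q.2 ≤ 1 := by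
  induction l with
  | nil =>
    intro q hq
    have : q = (ζ, 1) := by simpa [degs] using hq
    rw [this]
  | cons a l ih =>
    intro q hq
    rw [degs_cons] at hq
    rcases List.mem_cons.mp hq with hq | hq
    · rw [hq]
      have hm : ((ofGroup R).next ζ l).m = 0 := rfl
      have hc : cdeg (ofGroup R) ζ l = max (look (degs (ofGroup R) ζ l) ((ofGroup R).next ζ l).u)
          (look (degs (ofGroup R) ζ l) ((ofGroup R).next ζ l).v) := by
        unfold cdeg
        rw [if_pos hm]
      change cdeg (ofGroup R) ζ l ≤ 1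
      rw [hc]
      exact max_le (look_le ih _) (look_le ih _)
    · exact ih q hq

/-- a generic group data structure as a data structure without multiplications -/
def ofGroupD {W : Type} {M S : ℕ} {Ω : Type} (D : GGM3.HashStructure K W M S Ω) :
    HashStructure K W M S Ω :=
  ⟨D.pre, D.seed, fun ω μ w => ofGroup (D.query ω μ w)⟩

variable {W : Type} [Fintype K] [DecidableEq K] [DecidableEq W]

theorem degree_ofGroupD {M S : ℕ} {Ω : Type} (D : GGM3.HashStructure K W M S Ω)
    (h : Fin M → K → W) (T : ℕ) : DegreeAtMost h (ofGroupD D) T 1 :=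
  fun _ _ _ => degs_ofGroup _ _ _

theorem avgErr_ofGroupD {M S : ℕ} {Ω : Type} [Fintype Ω] (D : GGM3.HashStructure K W M S Ω)
    (h : Fin M → K → W) (T : ℕ) (B : Finset K) :
    avgErr h (ofGroupD D) T B = GGM3.avgErr h D T B := by
  unfold avgErr GGM3.avgErr
  congr 1
  refine Finset.sum_congr rfl fun ω _ => Finset.sum_congr rfl fun σ _ => ?_
  unfold hashErr GGM3.hashErr
  congr 1
  refine Finset.sum_congr rfl fun z _ => ?_
  have e : ∀ x : K, run ((ofGroupD D).query ω ((ofGroupD D).pre ω σ)
      (h ((ofGroupD D).seed ω ((ofGroupD D).pre ω σ)) z)) σ T x =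
      GGM3.run (D.query ω (D.pre ω σ) (h (D.seed ω (D.pre ω σ)) z)) σ T x :=
    fun x => run_ofGroup _ _ _ _
  rw [e z]
  have e2 : ((others (h ((ofGroupD D).seed ω ((ofGroupD D).pre ω σ))) B z).filter fun x =>
      run ((ofGroupD D).query ω ((ofGroupD D).pre ω σ)
        (h ((ofGroupD D).seed ω ((ofGroupD D).pre ω σ)) z)) σ T x = true) =
      ((GGM3.others (h (D.seed ω (D.pre ω σ))) B z).filter fun x =>
      GGM3.run (D.query ω (D.pre ω σ) (h (D.seed ω (D.pre ω σ)) z)) σ T x = true) := by
    refine Finset.filter_congr fun x _ => ?_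
    rw [e x]
  rw [e2]
  rfl

/-- the conclusion for one family in the ring model gives the conclusion in the group model -/
theorem group_of_ring {M : ℕ} [Fintype W] (f : Fin M → K → W) (B : Finset K) (L l : ℕ)
    (hf : ∀ (S T d : ℕ) (Ω : Type) [Fintype Ω] [Nonempty Ω]
        (D : HashStructure K W M S Ω) (γ : ℝ), 0 < γ → DegreeAtMost f D T d →
        avgErr f D T B ≤ 1 / 2 - γ →
        γ ^ 2 * B.card ≤ 80 * (S + 1 + Fintype.card W + l) * L * (T + 1) ^ 2 * d) :
    ∀ (S T : ℕ) (Ω : Type) [Fintype Ω] [Nonempty Ω]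
        (D : GGM3.HashStructure K W M S Ω) (γ : ℝ), 0 < γ →
        GGM3.avgErr f D T B ≤ 1 / 2 - γ →
        γ ^ 2 * B.card ≤ 80 * (S + 1 + Fintype.card W + l) * L * (T + 1) ^ 2 := by
  intro S T Ω _ _ D γ hγ herr
  have h1 := hf S T 1 Ω (ofGroupD D) γ hγ (degree_ofGroupD D f T)
    (by rw [avgErr_ofGroupD]; exact herr)
  simpa using h1

end GFM
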