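import Pool.Agent.H.MP_0427c5_lc.fm.Cnt

/-!
# 3SUM-Indexing with multiplications and random hash functions: the union bound
-/

set_option autoImplicit false

namespace GFM

open Finset Polynomial
open scoped Classical

variable {K W : Type} [Field K] [Fintype K] [Fintype W]

/-- the allowed number of hits -/
def thr (u L l d x : ℕ) : ℕ := (x + d * u) * L + l + 3 * (x * d) + 5 * d

/-- too many hits for some set and some maps -/
def Many (B : Finset K) (L l d : ℕ) (φ : K → W) : Prop :=
  ∃ (x : ℕ) (X : Finset K), X.card ≤ x ∧ ∃ g : W → K[X], (∀ w, (g w).natDegree ≤ d) ∧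
    thr (Fintype.card W) L l d x < nhit B X g φ

/-- the polynomial with given coefficients -/
noncomputable def pol {d : ℕ} (a : Fin (d + 1) → K) : K[X] :=
  ∑ i : Fin (d + 1), C (a i) * Polynomial.X ^ (i : ℕ)

theorem pol_deg {d : ℕ} (a : Fin (d + 1) → K) : (pol a).natDegree ≤ d := by
  unfold pol
  refine natDegree_sum_le_of_forall_le _ _ fun i _ => ?_
  exact (natDegree_C_mul_X_pow_le _ _).trans (Nat.lt_succ_iff.mp i.2)

theorem exists_pol {d : ℕ} (f : K[X]) (hf : f.natDegree ≤ d) : ∃ a : Fin (d + 1) → K, pol a = f := by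
  refine ⟨fun i => f.coeff i, ?_⟩
  unfold pol
  rw [Fin.sum_univ_eq_sum_range (fun i => C (f.coeff i) * Polynomial.X ^ i) (d + 1)]
  exact (f.as_sum_range_C_mul_X_pow' (Nat.lt_succ_iff.mpr hf)).symm

theorem exists_cov (X : Finset K) (x : ℕ) (hx : X.card ≤ x) : ∃ e : Fin x → K,
    X ⊆ univ.image e := by
  refine ⟨fun i => X.toList.getD i 0, ?_⟩
  intro y hy
  rw [← Finset.mem_toList, List.mem_iff_getElem] at hy
  obtain ⟨i, hi, hiy⟩ := hy
  have hi' : i < x := by
    rw [Finset.length_toList] at hi
    omega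
  rw [Finset.mem_image]
  refine ⟨⟨i, hi'⟩, Finset.mem_univ _, ?_⟩
  simp only
  rw [List.getD_eq_getElem _ _ hi, hiy]

theorem few_many (B : Finset K) (h : K → W) (L l d : ℕ) (hd1 : 1 ≤ d)
    (hL : Fintype.card K ≤ 2 ^ L) :
    (((ext B h).filter fun φ => Many B L l d φ).card : ℝ) * 2 ^ (l + 9 + d) ≤
      (Fintype.card W : ℝ) ^ B.card := by
  obtain ⟨u, hu⟩ : ∃ u, u = Fintype.card W := ⟨_, rfl⟩
  obtain ⟨q, hq⟩ : ∃ q, q = Fintype.card K := ⟨_, rfl⟩
  obtain ⟨F, hF⟩ : ∃ F : (x : ℕ) → (Fin x → K) → (W → Fin (d + 1) → K) → Finset (K → W),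
      ∀ x e g, F x e g =
      (ext B h).filter fun φ => thr u L l d x < nhit B (univ.image e) (fun w => pol (g w)) φ :=
    ⟨_, fun _ _ _ => rfl⟩
  have hsub : ((ext B h).filter fun φ => Many B L l d φ) ⊆
      (Finset.range B.card).biUnion fun x => univ.biUnion fun e : Fin x → K =>
        univ.biUnion fun g : W → Fin (d + 1) → K => F x e g := by
    intro φ hφ
    rw [Finset.mem_filter] at hφ
    obtain ⟨hφ, x, X, hX, g, hgd, hg⟩ := hφ
    obtain ⟨e, he⟩ := exists_cov X x hX
    choose a ha using fun w => exists_pol (g w) (hgd w)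
    have h1 := nhit_le B X g φ
    have h2 : x ≤ thr u L l d x := by
      unfold thr
      have : x ≤ x * d := Nat.le_mul_of_pos_right x hd1
      omega
    rw [← hu] at hg
    rw [Finset.mem_biUnion]
    refine ⟨x, Finset.mem_range.mpr (by omega), ?_⟩
    rw [Finset.mem_biUnion]
    refine ⟨e, Finset.mem_univ _, ?_⟩
    rw [Finset.mem_biUnion]
    refine ⟨a, Finset.mem_univ _, ?_⟩
    rw [hF, Finset.mem_filter]
    have hga : (fun w => pol (a w)) = g := funext ha
    rw [hga]
    exact ⟨hφ, lt_of_lt_of_le hg (nhit_mono he g φ)⟩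
  have hone : ∀ x e g, ((F x e g).card : ℝ) ≤
      (u : ℝ) ^ B.card * 32 ^ (x * d) / 4 ^ (thr u L l d x + 1) := by
    intro x e g
    rw [le_div_iff₀ (by positivity), hF]
    refine (few_hit B (univ.image e) (fun w => pol (g w)) (fun w => pol_deg (g w)) h
      (thr u L l d x)).trans ?_
    rw [← hu]
    refine mul_le_mul_of_nonneg_left ?_ (by positivity)
    refine pow_le_pow_right₀ (by norm_num) (Nat.mul_le_mul_right _ ?_)
    refine Finset.card_image_le.trans (le_of_eq ?_)
    rw [Finset.card_univ, Fintype.card_fin]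
  have hx : ∀ x, (((univ.biUnion fun e : Fin x → K =>
      univ.biUnion fun g : W → Fin (d + 1) → K => F x e g).card : ℕ) : ℝ) ≤
      (u : ℝ) ^ B.card * (1 / 2) ^ (l + 10 + d) * (1 / 2) ^ x := by
    intro x
    have h1 : (((univ.biUnion fun e : Fin x → K =>
        univ.biUnion fun g : W → Fin (d + 1) → K => F x e g).card : ℕ) : ℝ) ≤
        ∑ e : Fin x → K, ∑ g : W → Fin (d + 1) → K, ((F x e g).card : ℝ) := by
      have h2 : (univ.biUnion fun e : Fin x → K =>
          univ.biUnion fun g : W → Fin (d + 1) → K => F x e g).card ≤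
          ∑ e : Fin x → K, ∑ g : W → Fin (d + 1) → K, (F x e g).card :=
        Finset.card_biUnion_le.trans (Finset.sum_le_sum fun e _ => Finset.card_biUnion_le)
      exact_mod_cast h2
    refine h1.trans ?_
    calc ∑ e : Fin x → K, ∑ g : W → Fin (d + 1) → K, ((F x e g).card : ℝ)
        ≤ ∑ _e : Fin x → K, ∑ _g : W → Fin (d + 1) → K,
            ((u : ℝ) ^ B.card * 32 ^ (x * d) / 4 ^ (thr u L l d x + 1)) :=
          Finset.sum_le_sum fun e _ => Finset.sum_le_sum fun g _ => hone x e g
      _ = (q : ℝ) ^ x * ((q : ℝ) ^ (d + 1)) ^ u *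
            ((u : ℝ) ^ B.card * 32 ^ (x * d) / 4 ^ (thr u L l d x + 1)) := by
          rw [Finset.sum_const, Finset.sum_const, Finset.card_univ, Finset.card_univ,
            Fintype.card_fun, Fintype.card_fun, Fintype.card_fun, Fintype.card_fin,
            Fintype.card_fin, ← hq, ← hu, nsmul_eq_mul, nsmul_eq_mul]
          push_cast
          ring
      _ = (u : ℝ) ^ B.card * ((q : ℝ) ^ x * ((q : ℝ) ^ (d + 1)) ^ u * 32 ^ (x * d) /
            4 ^ (thr u L l d x + 1)) := by ring
      _ ≤ (u : ℝ) ^ B.card * ((1 / 2) ^ (l + 10 + d) * (1 / 2) ^ x) := by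
          refine mul_le_mul_of_nonneg_left ?_ (by positivity)
          rw [div_le_iff₀ (by positivity)]
          have hqL : (q : ℝ) ≤ 2 ^ L := by
            rw [hq]
            exact_mod_cast hL
          have e1 : (q : ℝ) ^ x * ((q : ℝ) ^ (d + 1)) ^ u * 32 ^ (x * d) ≤
              2 ^ (L * x + L * (d + 1) * u + 5 * (x * d)) := by
            calc (q : ℝ) ^ x * ((q : ℝ) ^ (d + 1)) ^ u * 32 ^ (x * d)
                ≤ (2 ^ L) ^ x * ((2 ^ L) ^ (d + 1)) ^ u * (2 ^ 5) ^ (x * d) := by
                  refine mul_le_mul (mul_le_mul (pow_le_pow_left₀ (by positivity) hqL x)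
                    (pow_le_pow_left₀ (by positivity) (pow_le_pow_left₀ (by positivity) hqL _) u)
                    (by positivity) (by positivity)) (le_of_eq (by norm_num))
                    (by positivity) (by positivity)
              _ = _ := by
                  rw [← pow_mul, ← pow_mul, ← pow_mul, ← pow_mul, ← pow_add, ← pow_add]
                  congr 1
                  ring
          refine e1.trans ?_
          have e2 : (4 : ℝ) ^ (thr u L l d x + 1) = 2 ^ (2 * (thr u L l d x + 1)) := by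
            rw [pow_mul]
            norm_num
          have e3 : L * x + L * (d + 1) * u + 5 * (x * d) + ((l + 10 + d) + x) ≤
              2 * (thr u L l d x + 1) := by
            unfold thr
            have k1 : x ≤ x * d := Nat.le_mul_of_pos_right x hd1
            have k2 : L * (d + 1) * u ≤ 2 * (d * u * L) := by
              calc L * (d + 1) * u ≤ L * (2 * d) * u :=
                    Nat.mul_le_mul_right _ (Nat.mul_le_mul_left _ (by omega))
                _ = 2 * (d * u * L) := by ring
            have k3 : 2 * ((x + d * u) * L + l + 3 * (x * d) + 5 * d + 1) =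
                2 * (L * x) + 2 * (d * u * L) + 2 * l + 6 * (x * d) + 10 * d + 2 := by ring
            rw [k3]
            omega
          rw [e2]
          obtain ⟨r, hr⟩ : ∃ r, 2 * (thr u L l d x + 1) =
              L * x + L * (d + 1) * u + 5 * (x * d) + ((l + 10 + d) + x) + r := ⟨_, (Nat.add_sub_cancel' e3).symm⟩
          rw [hr]
          have e4 : (1 / 2 : ℝ) ^ (l + 10 + d) * (1 / 2) ^ x *
              2 ^ (L * x + L * (d + 1) * u + 5 * (x * d) + ((l + 10 + d) + x) + r) =
              2 ^ (L * x + L * (d + 1) * u + 5 * (x * d) + r) := by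
            rw [← pow_add, one_div, inv_pow]
            have e5 : (2 : ℝ) ^ (L * x + L * (d + 1) * u + 5 * (x * d) + ((l + 10 + d) + x) + r) =
                2 ^ ((l + 10 + d) + x) * 2 ^ (L * x + L * (d + 1) * u + 5 * (x * d) + r) := by
              rw [← pow_add]
              congr 1
              ring
            rw [e5, ← mul_assoc, inv_mul_cancel₀ (by positivity), one_mul]
          rw [e4]
          exact pow_le_pow_right₀ (by norm_num) (by omega)
      _ = _ := by ring
  have hsum : ∑ x ∈ Finset.range B.card, (1 / 2 : ℝ) ^ x ≤ 2 := by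
    have h1 := sum_geometric_two_le B.card
    exact h1
  have htot : (((ext B h).filter fun φ => Many B L l d φ).card : ℝ) ≤
      (u : ℝ) ^ B.card * (1 / 2) ^ (l + 10 + d) * 2 := by
    calc (((ext B h).filter fun φ => Many B L l d φ).card : ℝ)
        ≤ ((∑ x ∈ Finset.range B.card, (univ.biUnion fun e : Fin x → K =>
            univ.biUnion fun g : W → Fin (d + 1) → K => F x e g).card : ℕ) : ℝ) := by
          exact_mod_cast (Finset.card_le_card hsub).trans Finset.card_biUnion_le
      _ = ∑ x ∈ Finset.range B.card, (((univ.biUnion fun e : Fin x → K =>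
            univ.biUnion fun g : W → Fin (d + 1) → K => F x e g).card : ℕ) : ℝ) := by push_cast; rfl
      _ ≤ ∑ x ∈ Finset.range B.card, (u : ℝ) ^ B.card * (1 / 2) ^ (l + 10 + d) * (1 / 2) ^ x :=
          Finset.sum_le_sum fun x _ => hx x
      _ = (u : ℝ) ^ B.card * (1 / 2) ^ (l + 10 + d) * ∑ x ∈ Finset.range B.card, (1 / 2 : ℝ) ^ x := by
          rw [Finset.mul_sum]
      _ ≤ _ := mul_le_mul_of_nonneg_left hsum (by positivity)
  rw [← hu]
  calc (((ext B h).filter fun φ => Many B L l d φ).card : ℝ) * 2 ^ (l + 9 + d)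
      ≤ (u : ℝ) ^ B.card * (1 / 2) ^ (l + 10 + d) * 2 * 2 ^ (l + 9 + d) :=
        mul_le_mul_of_nonneg_right htot (by positivity)
    _ = (u : ℝ) ^ B.card := by
        have e7 : (2 : ℝ) ^ (l + 10 + d) = 2 * 2 ^ (l + 9 + d) := by
          rw [← pow_succ']
          congr 1
          ring
        rw [one_div, inv_pow, e7]
        field_simp

/-- too many hits for some degree -/
def AnyMany (B : Finset K) (L l : ℕ) (φ : K → W) : Prop := ∃ d, 1 ≤ d ∧ Many B L l d φ

theorem few_any (B : Finset K) (h : K → W) (L l : ℕ) (hL : Fintype.card K ≤ 2 ^ L) :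
    (((ext B h).filter fun φ => AnyMany B L l φ).card : ℝ) * 2 ^ (l + 9) ≤
      (Fintype.card W : ℝ) ^ B.card := by
  have hsub : ((ext B h).filter fun φ => AnyMany B L l φ) ⊆
      (Finset.range B.card).biUnion fun i => (ext B h).filter fun φ => Many B L l (i + 1) φ := by
    intro φ hφ
    rw [Finset.mem_filter] at hφ
    obtain ⟨hφ, d, hd1, hm⟩ := hφ
    obtain ⟨i, rfl⟩ : ∃ i, d = i + 1 := ⟨d - 1, by omega⟩
    rw [Finset.mem_biUnion]
    refine ⟨i, Finset.mem_range.mpr ?_, Finset.mem_filter.mpr ⟨hφ, hm⟩⟩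
    obtain ⟨x, X, hX, g, hgd, hg⟩ := hm
    have h1 := nhit_le B X g φ
    have h2 : i < thr (Fintype.card W) L l (i + 1) x := by
      unfold thr
      omega
    omega
  have hone : ∀ i, (((ext B h).filter fun φ => Many B L l (i + 1) φ).card : ℝ) ≤
      (Fintype.card W : ℝ) ^ B.card / 2 ^ (l + 9) * ((1 / 2) * (1 / 2) ^ i) := by
    intro i
    have h1 := few_many B h L l (i + 1) (by omega) hL
    have h2 : (2 : ℝ) ^ (l + 9 + (i + 1)) = 2 ^ (l + 9) * (2 * 2 ^ i) := by
      rw [pow_add, pow_succ' (2 : ℝ) i]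
    rw [h2] at h1
    have h3 : (0 : ℝ) < 2 ^ (l + 9) * (2 * 2 ^ i) := by positivity
    have h4 := (le_div_iff₀ h3).mpr h1
    refine h4.trans (le_of_eq ?_)
    rw [one_div, inv_pow]
    field_simp
  have hsum : ∑ i ∈ Finset.range B.card, ((1 / 2 : ℝ) * (1 / 2) ^ i) ≤ 1 := by
    rw [← Finset.mul_sum]
    have h1 := sum_geometric_two_le B.card
    linarith
  have h1 : (((ext B h).filter fun φ => AnyMany B L l φ).card : ℝ) ≤
      (Fintype.card W : ℝ) ^ B.card / 2 ^ (l + 9) := by
    calc (((ext B h).filter fun φ => AnyMany B L l φ).card : ℝ)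
        ≤ ((∑ i ∈ Finset.range B.card, ((ext B h).filter fun φ => Many B L l (i + 1) φ).card : ℕ) :
            ℝ) := by
          exact_mod_cast (Finset.card_le_card hsub).trans Finset.card_biUnion_le
      _ = ∑ i ∈ Finset.range B.card, (((ext B h).filter fun φ => Many B L l (i + 1) φ).card : ℝ) := by
          push_cast
          rfl
      _ ≤ ∑ i ∈ Finset.range B.card, (Fintype.card W : ℝ) ^ B.card / 2 ^ (l + 9) *
            ((1 / 2) * (1 / 2) ^ i) := Finset.sum_le_sum fun i _ => hone i
      _ = (Fintype.card W : ℝ) ^ B.card / 2 ^ (l + 9) *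
            ∑ i ∈ Finset.range B.card, ((1 / 2 : ℝ) * (1 / 2) ^ i) := by rw [Finset.mul_sum]
      _ ≤ (Fintype.card W : ℝ) ^ B.card / 2 ^ (l + 9) * 1 :=
          mul_le_mul_of_nonneg_left hsum (by positivity)
      _ = _ := mul_one _
  have h3 : (0 : ℝ) < 2 ^ (l + 9) := by positivity
  exact (le_div_iff₀ h3).mp h1

/-- families of functions -/
theorem few_fam {M : ℕ} (B : Finset K) (h : Fin M → K → W) (L l : ℕ)
    (hL : Fintype.card K ≤ 2 ^ L) (hl : M ≤ 2 ^ l) :
    512 * ((Fintype.piFinset fun s => ext B (h s)).filter fun f =>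
      ∃ s, AnyMany B L l (f s)).card ≤ Fintype.card W ^ (M * B.card) := by
  obtain ⟨E, hE⟩ : ∃ E : Fin M → Finset (K → W), ∀ s, E s = ext B (h s) := ⟨_, fun _ => rfl⟩
  obtain ⟨Bd, hBd⟩ : ∃ Bd : Fin M → Finset (K → W), ∀ s, Bd s =
      (ext B (h s)).filter fun φ => AnyMany B L l φ := ⟨_, fun _ => rfl⟩
  obtain ⟨N, hN⟩ : ∃ N : ℕ, N = Fintype.card W ^ B.card := ⟨_, rfl⟩
  have hEc : ∀ s, (E s).card = N := fun s => by rw [hE, card_ext, hN]
  have hsub : ((Fintype.piFinset fun s => ext B (h s)).filter fun f =>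
      ∃ s, AnyMany B L l (f s)) ⊆ univ.biUnion fun s : Fin M =>
        Fintype.piFinset (Function.update E s (Bd s)) := by
    intro f hf
    rw [Finset.mem_filter, Fintype.mem_piFinset] at hf
    obtain ⟨hf, s, hs⟩ := hf
    rw [Finset.mem_biUnion]
    refine ⟨s, Finset.mem_univ _, ?_⟩
    rw [Fintype.mem_piFinset]
    intro s'
    by_cases hss : s' = s
    · rw [hss, Function.update_self, hBd, Finset.mem_filter]
      exact ⟨hf s, hs⟩
    · rw [Function.update_of_ne hss, hE]
      exact hf s'
  have hone : ∀ s : Fin M, ((Fintype.piFinset (Function.update E s (Bd s))).card : ℝ) *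
      2 ^ (l + 9) ≤ (N : ℝ) ^ M := by
    intro s
    rw [Fintype.card_piFinset]
    have h1 : ∀ s', (Function.update E s (Bd s) s').card =
        Function.update (fun s' => (E s').card) s (Bd s).card s' := by
      intro s'
      by_cases hss : s' = s
      · rw [hss, Function.update_self, Function.update_self]
      · rw [Function.update_of_ne hss, Function.update_of_ne hss]
    rw [Finset.prod_congr rfl fun s' _ => h1 s', Finset.prod_update_of_mem (Finset.mem_univ s),
      Finset.prod_congr rfl fun s' _ => hEc s', Finset.prod_const]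
    have h2 : (univ \ {s} : Finset (Fin M)).card + 1 = M := by
      have h3 := Finset.card_sdiff_add_card_eq_card (Finset.subset_univ ({s} : Finset (Fin M)))
      rwa [Finset.card_singleton, Finset.card_univ, Fintype.card_fin] at h3
    have h4 := few_any B (h s) L l hL
    have h5 : ((Bd s).card : ℝ) * 2 ^ (l + 9) ≤ N := by
      rw [hBd, hN]
      push_cast
      exact h4
    push_cast
    calc ((Bd s).card : ℝ) * (N : ℝ) ^ (univ \ {s} : Finset (Fin M)).card * 2 ^ (l + 9)
        = (((Bd s).card : ℝ) * 2 ^ (l + 9)) * (N : ℝ) ^ (univ \ {s} : Finset (Fin M)).card := by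
          ring
      _ ≤ N * (N : ℝ) ^ (univ \ {s} : Finset (Fin M)).card :=
          mul_le_mul_of_nonneg_right h5 (by positivity)
      _ = (N : ℝ) ^ M := by
          rw [← pow_succ', h2]
  have htot : (((Fintype.piFinset fun s => ext B (h s)).filter fun f =>
      ∃ s, AnyMany B L l (f s)).card : ℝ) * 2 ^ (l + 9) ≤ 2 ^ l * (N : ℝ) ^ M := by
    calc (((Fintype.piFinset fun s => ext B (h s)).filter fun f =>
          ∃ s, AnyMany B L l (f s)).card : ℝ) * 2 ^ (l + 9)
        ≤ ((∑ s : Fin M, (Fintype.piFinset (Function.update E s (Bd s))).card : ℕ) : ℝ) *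
            2 ^ (l + 9) := by
          refine mul_le_mul_of_nonneg_right ?_ (by positivity)
          exact_mod_cast (Finset.card_le_card hsub).trans Finset.card_biUnion_le
      _ = ∑ s : Fin M, ((Fintype.piFinset (Function.update E s (Bd s))).card : ℝ) *
            2 ^ (l + 9) := by
          push_cast
          rw [Finset.sum_mul]
      _ ≤ ∑ _s : Fin M, (N : ℝ) ^ M := Finset.sum_le_sum fun s _ => hone s
      _ = (M : ℝ) * (N : ℝ) ^ M := by
          rw [Finset.sum_const, Finset.card_univ, Fintype.card_fin, nsmul_eq_mul]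
      _ ≤ 2 ^ l * (N : ℝ) ^ M := by
          refine mul_le_mul_of_nonneg_right ?_ (by positivity)
          exact_mod_cast hl
  have hfin : 512 * (((Fintype.piFinset fun s => ext B (h s)).filter fun f =>
      ∃ s, AnyMany B L l (f s)).card : ℝ) ≤ (N : ℝ) ^ M := by
    have h1 : (0 : ℝ) < 2 ^ l := by positivity
    refine le_of_mul_le_mul_left ?_ h1
    calc (2 : ℝ) ^ l * (512 * (((Fintype.piFinset fun s => ext B (h s)).filter fun f =>
          ∃ s, AnyMany B L l (f s)).card : ℝ))
        = (((Fintype.piFinset fun s => ext B (h s)).filter fun f =>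
          ∃ s, AnyMany B L l (f s)).card : ℝ) * 2 ^ (l + 9) := by
          rw [pow_add]
          norm_num
          ring
      _ ≤ _ := htot
  have hNM : N ^ M = Fintype.card W ^ (M * B.card) := by
    rw [hN, ← pow_mul, mul_comm]
  rw [← hNM]
  exact_mod_cast hfin

end GFM
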