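import Pool.Agent.H.MP_0427c5_lc.hf.Core
import Pool.Agent.H.MP_0427c5_lc.fm.Un

/-!
# 3SUM-Indexing with multiplications and random hash functions: the lower bound
-/

set_option autoImplicit false

namespace GFM

open Finset

/-- the inequalities between the parameters -/
theorem rh_num {β u t a g L l s m c : ℝ} (hu : 0 ≤ u) (ht : 1 ≤ t) (ha : 1 ≤ a) (hl : 0 ≤ l)
    (hL : 1 ≤ L) (hg : 0 < g) (hg2 : g ≤ 1 / 2)
    (hcon : 80 * (a + u + l) * L * t ^ 2 < g ^ 2 * β) (hs0 : 0 ≤ s) (hs : s ≤ 3 * t)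
    (hm0 : 0 ≤ m) (hm : m * g ≤ 2 * a) (hc : c = (m * s + u) * L + l + 3 * (m * s) + 5) :
    2 * t * (u * s + c) + s * s * (m + 1) ≤ g * β ∧ 2 * (s * s * (m + 1)) ≤ β := by
  have ht0 : 0 < t := by linarith
  have ht2 : t ≤ t ^ 2 := by nlinarith
  have hA : 0 ≤ a * t ^ 2 := by positivity
  have hms : m * s * g ≤ 6 * a * t := by
    calc m * s * g = (m * g) * s := by ring
      _ ≤ (2 * a) * (3 * t) := mul_le_mul hm hs hs0 (by positivity)
      _ = _ := by ring
  -- everything times `g`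
  have d1 : g * (s * s * (m + 1)) ≤ 45 / 2 * (a * t ^ 2) := by
    have h4 : (m + 1) * g ≤ 5 * a / 2 := by nlinarith
    have h5 : s * s ≤ 9 * t ^ 2 := by nlinarith
    calc g * (s * s * (m + 1)) = (s * s) * ((m + 1) * g) := by ring
      _ ≤ (9 * t ^ 2) * (5 * a / 2) := mul_le_mul h5 h4 (by positivity) (by positivity)
      _ = _ := by ring
  have d2 : g * (2 * t * (u * s)) ≤ 3 * (u * t ^ 2) := by
    have h3 : u * s ≤ u * (3 * t) := mul_le_mul_of_nonneg_left hs hu
    have h4 : 2 * t * (u * s) ≤ 2 * t * (u * (3 * t)) :=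
      mul_le_mul_of_nonneg_left h3 (by positivity)
    have h5 : g * (2 * t * (u * s)) ≤ 1 / 2 * (2 * t * (u * (3 * t))) :=
      mul_le_mul hg2 h4 (by positivity) (by norm_num)
    linarith
  have d3 : g * (2 * t * (m * s * L)) ≤ 12 * (a * t ^ 2) * L := by
    have h3 : (2 * t * L) * (m * s * g) ≤ (2 * t * L) * (6 * a * t) :=
      mul_le_mul_of_nonneg_left hms (by positivity)
    calc g * (2 * t * (m * s * L)) = (2 * t * L) * (m * s * g) := by ring
      _ ≤ (2 * t * L) * (6 * a * t) := h3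
      _ = _ := by ring
  have d4 : g * (2 * t * (u * L)) ≤ u * t ^ 2 * L := by
    have h3 : g * (2 * t * (u * L)) ≤ 1 / 2 * (2 * t * (u * L)) :=
      mul_le_mul_of_nonneg_right hg2 (by positivity)
    have h4 : t * (u * L) ≤ t ^ 2 * (u * L) := mul_le_mul_of_nonneg_right ht2 (by positivity)
    linarith
  have d5 : g * (2 * t * l) ≤ l * t ^ 2 := by
    have h3 : g * (2 * t * l) ≤ 1 / 2 * (2 * t * l) :=
      mul_le_mul_of_nonneg_right hg2 (by positivity)
    have h4 : t * l ≤ t ^ 2 * l := mul_le_mul_of_nonneg_right ht2 hl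
    linarith
  have d6 : g * (2 * t * (3 * (m * s))) ≤ 36 * (a * t ^ 2) := by
    have h3 : (6 * t) * (m * s * g) ≤ (6 * t) * (6 * a * t) :=
      mul_le_mul_of_nonneg_left hms (by positivity)
    calc g * (2 * t * (3 * (m * s))) = (6 * t) * (m * s * g) := by ring
      _ ≤ (6 * t) * (6 * a * t) := h3
      _ = _ := by ring
  have d7 : g * (2 * t * 5) ≤ 5 * (a * t ^ 2) := by
    have h3 : g * (2 * t * 5) ≤ 1 / 2 * (2 * t * 5) :=
      mul_le_mul_of_nonneg_right hg2 (by positivity)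
    have h4 : 1 * t ^ 2 ≤ a * t ^ 2 := mul_le_mul_of_nonneg_right ha (by positivity)
    linarith
  have hL1 : a * t ^ 2 ≤ a * t ^ 2 * L := by nlinarith
  have hL2 : u * t ^ 2 ≤ u * t ^ 2 * L := by
    have : 0 ≤ u * t ^ 2 := by positivity
    nlinarith
  have hL3 : l * t ^ 2 ≤ l * t ^ 2 * L := by
    have : 0 ≤ l * t ^ 2 := by positivity
    nlinarith
  have hA2 : 0 ≤ a * t ^ 2 * L := by positivity
  have hU2 : 0 ≤ u * t ^ 2 * L := by positivity
  have hl2 : 0 ≤ l * t ^ 2 * L := by positivity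
  have e1 : 80 * (a + u + l) * L * t ^ 2 =
      80 * (a * t ^ 2 * L) + 80 * (u * t ^ 2 * L) + 80 * (l * t ^ 2 * L) := by ring
  rw [e1] at hcon
  refine ⟨?_, ?_⟩
  · have h1 : g * (2 * t * (u * s + c) + s * s * (m + 1)) ≤ g * (g * β) := by
      rw [hc]
      have e2 : g * (2 * t * (u * s + ((m * s + u) * L + l + 3 * (m * s) + 5)) +
          s * s * (m + 1)) = g * (2 * t * (u * s)) + g * (2 * t * (m * s * L)) +
          g * (2 * t * (u * L)) + g * (2 * t * l) + g * (2 * t * (3 * (m * s))) +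
          g * (2 * t * 5) + g * (s * s * (m + 1)) := by ring
      rw [e2]
      nlinarith
    exact le_of_mul_le_mul_left h1 hg
  · have h1 : g * (2 * (s * s * (m + 1))) ≤ g * β := by
      have h2 : g ^ 2 * β ≤ g * β := by
        have h3 : 0 < g ^ 2 * β := by linarith
        have h4 : 0 < β := by
          by_contra h5
          rw [not_lt] at h5
          have := mul_nonpos_of_nonneg_of_nonpos (sq_nonneg g) h5
          linarith
        nlinarith [mul_pos hg h4]
      linarith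
    exact le_of_mul_le_mul_left h1 hg

/-- the inequalities between the parameters, degree `d` -/
theorem rh_num_deg {β u t a g L l s m c d : ℝ} (hu : 0 ≤ u) (ht : 1 ≤ t) (ha : 1 ≤ a) (hl : 0 ≤ l)
    (hL : 1 ≤ L) (hg : 0 < g) (hg2 : g ≤ 1 / 2) (hd : 1 ≤ d)
    (hcon : 80 * (a + u + l) * L * t ^ 2 * d < g ^ 2 * β) (hs0 : 0 ≤ s) (hs : s ≤ 3 * t)
    (hm0 : 0 ≤ m) (hm : m * g ≤ 2 * a)
    (hc : c = (m * s + d * u) * L + l + 3 * (m * s * d) + 5 * d) :
    2 * t * (u * (s * d) + c) + s * s * (m + 1) * d ≤ g * β ∧ 2 * (s * s * (m + 1) * d) ≤ β := by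
  have hd0 : 0 < d := by linarith
  have ht0 : 0 < t := by linarith
  have h1 : 80 * (a + u + l) * L * t ^ 2 < g ^ 2 * (β / d) := by
    rw [mul_div_assoc', lt_div_iff₀ hd0]
    exact hcon
  obtain ⟨h2, h3⟩ := rh_num (β := β / d) (c := (m * s + u) * L + l + 3 * (m * s) + 5) hu ht ha hl hL
    hg hg2 h1 hs0 hs hm0 hm rfl
  have hms : 0 ≤ m * s := mul_nonneg hm0 hs0
  have hc2 : c ≤ ((m * s + u) * L + l + 3 * (m * s) + 5) * d := by
    rw [hc]
    have k1 : m * s * L ≤ m * s * L * d := by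
      have : 0 ≤ m * s * L := by positivity
      nlinarith
    have k2 : l ≤ l * d := by nlinarith
    nlinarith
  have e1 : β / d * d = β := div_mul_cancel₀ β hd0.ne'
  constructor
  · have h4 : (2 * t * (u * s + ((m * s + u) * L + l + 3 * (m * s) + 5)) + s * s * (m + 1)) * d ≤
        g * (β / d) * d := mul_le_mul_of_nonneg_right h2 hd0.le
    have h5 : g * (β / d) * d = g * β := by rw [mul_assoc, e1]
    have h6 : 2 * t * c ≤ 2 * t * (((m * s + u) * L + l + 3 * (m * s) + 5) * d) :=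
      mul_le_mul_of_nonneg_left hc2 (by linarith)
    rw [h5] at h4
    nlinarith
  · have h4 : 2 * (s * s * (m + 1)) * d ≤ β / d * d := mul_le_mul_of_nonneg_right h3 hd0.le
    rw [e1] at h4
    linarith

variable {K W : Type} [Field K] [Fintype K] [Fintype W]

theorem rh_core (B : Finset K) {M : ℕ} (h : Fin M → K → W)
    (hlarge : ∀ i w, B.card ≤ (noC (h i) B w).card) (L l d : ℕ) (hL : 1 ≤ L) (hd1 : 1 ≤ d)
    (hcov : ∀ i, ¬ Many B L l d (h i))
    {S T : ℕ} {Ω : Type} [Fintype Ω] [Nonempty Ω] [DecidableEq K] [DecidableEq W]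
    (D : HashStructure K W M S Ω) (hD : ∀ ω μ w, Low (D.query ω μ w) d) (γ : ℝ) (hγ : 0 < γ)
    (herr : avgErr h D T B ≤ 1 / 2 - γ) :
    γ ^ 2 * B.card ≤ 80 * (S + 1 + Fintype.card W + l) * L * (T + 1) ^ 2 * d := by
  classical
  have hinst : ‹DecidableEq K› = fun a b => Classical.propDecidable (a = b) :=
    Subsingleton.elim _ _
  subst hinst
  by_contra hcon
  rw [not_le] at hcon
  have hT0 : (0 : ℝ) ≤ T := Nat.cast_nonneg _
  have hS0 : (0 : ℝ) ≤ S := Nat.cast_nonneg _
  have hu0 : (0 : ℝ) ≤ (Fintype.card W : ℝ) := Nat.cast_nonneg _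
  have hl0 : (0 : ℝ) ≤ l := Nat.cast_nonneg _
  have hL1 : (1 : ℝ) ≤ L := by exact_mod_cast hL
  have hΩ : (0 : ℝ) < Fintype.card Ω := by exact_mod_cast Fintype.card_pos
  have hP : (0 : ℝ) < Fintype.card (Equiv.Perm K) := by exact_mod_cast Fintype.card_pos
  have hγ2 : γ ≤ 1 / 2 := by
    have h1 : 0 ≤ avgErr h D T B := by
      unfold avgErr
      exact div_nonneg (Finset.sum_nonneg fun ω _ => Finset.sum_nonneg fun σ _ =>
        hashErr_nonneg _ _ _ _ _) (mul_pos hΩ hP).le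
    linarith
  have hBpos : 0 < B.card := by
    rcases Nat.eq_zero_or_pos B.card with h1 | h1
    · rw [h1, Nat.cast_zero, mul_zero] at hcon
      have : (0 : ℝ) ≤ 80 * (S + 1 + Fintype.card W + l) * L * (T + 1) ^ 2 * d := by positivity
      linarith
    · exact h1
  have hB0 : (0 : ℝ) < B.card := by exact_mod_cast hBpos
  -- the number of repetitions
  obtain ⟨q, hq⟩ : ∃ q : ℕ, q = ⌈3 / (2 * γ)⌉₊ := ⟨_, rfl⟩
  have hqg : (q : ℝ) * γ ≤ 2 := by
    have h1 : (q : ℝ) < 3 / (2 * γ) + 1 := by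
      rw [hq]
      exact Nat.ceil_lt_add_one (by positivity)
    have h2 : (q : ℝ) * γ ≤ (3 / (2 * γ) + 1) * γ := mul_le_mul_of_nonneg_right h1.le hγ.le
    have h3 : (3 / (2 * γ) + 1) * γ = 3 / 2 + γ := by field_simp
    linarith
  obtain ⟨m, hm⟩ : ∃ m : ℕ, m = (S + 1) * q := ⟨_, rfl⟩
  have hmg : (m : ℝ) * γ ≤ 2 * ((S : ℝ) + 1) := by
    have h1 : (m : ℝ) = ((S : ℝ) + 1) * q := by
      rw [hm]
      push_cast
      ring
    rw [h1]
    nlinarith
  obtain ⟨s, hs⟩ : ∃ s : ℕ, s = 3 * T + 1 := ⟨_, rfl⟩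
  have hsR : (s : ℝ) = 3 * T + 1 := by
    rw [hs]
    push_cast
    ring
  have hd1R : (1 : ℝ) ≤ d := by exact_mod_cast hd1
  obtain ⟨c, hcd⟩ : ∃ c : ℕ, c = thr (Fintype.card W) L l d (m * s) := ⟨_, rfl⟩
  have hcR : (c : ℝ) = ((m : ℝ) * s + d * Fintype.card W) * L + l + 3 * (m * s * d) + 5 * d := by
    rw [hcd]
    unfold thr
    push_cast
    ring
  obtain ⟨d3, d4⟩ := rh_num_deg (β := (B.card : ℝ)) (u := (Fintype.card W : ℝ)) (t := (T : ℝ) + 1)
    (a := (S : ℝ) + 1) (g := γ) (L := (L : ℝ)) (l := (l : ℝ)) (s := (s : ℝ)) (m := (m : ℝ))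
    (c := (c : ℝ)) (d := (d : ℝ)) hu0 (by linarith) (by linarith) hl0 hL1 hγ hγ2 hd1R hcon
    (Nat.cast_nonneg _)
    (by rw [hsR]; linarith) (Nat.cast_nonneg _) hmg hcR
  have hβ : ∀ i, ∑ w, (yesC (h i) B (fun _ => True) w).card = B.card := by
    intro i
    have h1 := sum_yesC_add (h i) B (fun _ => True)
    have h2 : badC (h i) B (fun _ => True) = ∅ := by
      rw [Finset.eq_empty_iff_forall_notMem]
      intro z hz
      rw [mem_badC] at hz
      exact hz.2 trivial
    rw [h2, Finset.card_empty, Nat.add_zero] at h1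
    exact h1
  -- the moments
  refine GGM3.core_abs (P := Equiv.Perm K) (fun ω μ σ => hitF (D.query ω μ) σ T
    (yesC (h (D.seed ω μ)) B (fun _ => True))
    (noC (h (D.seed ω μ)) B)) D.pre (fun ω μ σ => hitF_nonneg _ _ _ _ _) γ hγ hγ2 ?_
    m (by rw [hm, hq]) ((1 + γ) / 2) (by linarith) le_rfl ?_
  · -- the success probability
    have h1 : ∀ ω σ, 1 - hashErr (h (D.seed ω (D.pre ω σ))) (D.query ω (D.pre ω σ)) σ T B ≤
        hitF (D.query ω (D.pre ω σ)) σ T
          (yesC (h (D.seed ω (D.pre ω σ))) B (fun _ => True))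
          (noC (h (D.seed ω (D.pre ω σ))) B) := by
      intro ω σ
      have h2 := err_le (h (D.seed ω (D.pre ω σ))) (D.query ω (D.pre ω σ)) σ T B
        (fun _ => True) (fun w _ => by
          have := hlarge (D.seed ω (D.pre ω σ)) w
          exact Finset.card_pos.mp (by omega))
      have h3 : ((badC (h (D.seed ω (D.pre ω σ))) B (fun _ => True)).card : ℝ) = 0 := by
        have h4 : badC (h (D.seed ω (D.pre ω σ))) B (fun _ => True) = ∅ := by
          rw [Finset.eq_empty_iff_forall_notMem]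
          intro z hz
          rw [mem_badC] at hz
          exact hz.2 trivial
        rw [h4, Finset.card_empty, Nat.cast_zero]
      rw [h3, add_zero] at h2
      exact le_of_mul_le_mul_left h2 hB0
    have h2 : (∑ ω : Ω, ∑ σ : Equiv.Perm K, (1 : ℝ)) = Fintype.card Ω * Fintype.card (Equiv.Perm K) := by
      rw [Finset.sum_const, Finset.sum_const, Finset.card_univ, Finset.card_univ, nsmul_eq_mul,
        nsmul_eq_mul, mul_one]
    have hW : (0 : ℝ) < Fintype.card Ω * Fintype.card (Equiv.Perm K) := mul_pos hΩ hP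
    rw [le_div_iff₀ hW]
    have h3 : (∑ ω, ∑ σ, hashErr (h (D.seed ω (D.pre ω σ))) (D.query ω (D.pre ω σ)) σ T B) ≤
        (1 / 2 - γ) * (Fintype.card Ω * Fintype.card (Equiv.Perm K)) := by
      unfold avgErr at herr
      rwa [div_le_iff₀ hW] at herr
    have h4 : ∑ ω : Ω, ∑ σ : Equiv.Perm K,
        (1 - hashErr (h (D.seed ω (D.pre ω σ))) (D.query ω (D.pre ω σ)) σ T B) ≤
        ∑ ω : Ω, ∑ σ : Equiv.Perm K, hitF (D.query ω (D.pre ω σ)) σ T
          (yesC (h (D.seed ω (D.pre ω σ))) B (fun _ => True))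
          (noC (h (D.seed ω (D.pre ω σ))) B) :=
      Finset.sum_le_sum fun ω _ => Finset.sum_le_sum fun σ _ => h1 ω σ
    simp only [Finset.sum_sub_distrib] at h4
    rw [h2] at h4
    linarith
  · intro ω μ
    obtain ⟨i, hi⟩ : ∃ i, i = D.seed ω μ := ⟨_, rfl⟩
    rw [← hi]
    have h5 := hf_moment_univ (D.query ω μ) T s m c d (by omega) hd1
      (fun w σ z => deg_le (hD ω μ w) T σ z)
      (yesC (h i) B (fun _ => True)) (noC (h i) B) (by rw [hβ i]; exact hBpos)
      (fun w _ => by rw [hβ i]; exact hlarge i w) ?_ ?_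
    · refine h5.trans ?_
      refine mul_le_mul_of_nonneg_right (pow_le_pow_left₀ ?_ ?_ m) hP.le
      · have h1 : 0 ≤ (((2 * T + 1) * (Fintype.card W * (s * d) + c) + s * s * (m + 1) * d : ℕ) : ℝ) /
            ((∑ w, (yesC (h i) B (fun _ => True) w).card : ℕ) : ℝ) :=
          div_nonneg (Nat.cast_nonneg _) (Nat.cast_nonneg _)
        linarith
      · have h1 : (((2 * T + 1) * (Fintype.card W * (s * d) + c) + s * s * (m + 1) * d : ℕ) : ℝ) /
            ((∑ w, (yesC (h i) B (fun _ => True) w).card : ℕ) : ℝ) ≤ γ := by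
          rw [hβ i, div_le_iff₀ hB0]
          refine le_trans ?_ d3
          push_cast
          refine add_le_add_left ?_ _
          refine mul_le_mul_of_nonneg_right (by linarith) ?_
          exact add_nonneg (mul_nonneg hu0 (by positivity)) (Nat.cast_nonneg _)
        linarith
    · have h1 : (2 * (s * s * (m + 1) * d) : ℕ) ≤ B.card := by
        have : ((2 * (s * s * (m + 1) * d) : ℕ) : ℝ) ≤ (B.card : ℝ) := by
          push_cast
          exact d4
        exact_mod_cast this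
      exact h1.trans (Finset.card_le_univ B)
    · intro X hX g' hg'
      by_contra hc
      rw [not_le] at hc
      refine hcov i ⟨m * s, X, hX, g', hg', ?_⟩
      rw [← nhit_eq, ← hcd]
      exact hc

end GFM
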