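import Pool.Agent.H.MP_0427c5_lc.fm.Deg

/-!
# 3SUM-Indexing with few multiplications: counting
-/

set_option autoImplicit false

namespace GFM

open Finset Polynomial
open scoped Classical

variable {K : Type} [Field K] [Fintype K]

/-- the labellings which agree with `σ₀` on `X` -/
noncomputable def Cl (Y : Finset K) (σ₀ : Equiv.Perm K) : Finset (Equiv.Perm K) :=
  univ.filter fun σ => ∀ x ∈ Y, σ x = σ₀ x

omit [Field K] in
theorem mem_Cl {Y : Finset K} {σ₀ σ : Equiv.Perm K} : σ ∈ Cl Y σ₀ ↔ ∀ x ∈ Y, σ x = σ₀ x := by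
  simp [Cl]

theorem mul_sw_mem {Y : Finset K} {σ₀ σ : Equiv.Perm K} {L : Finset K[X]} {z y : K}
    (h : Good L Y z y) (hσ : σ ∈ Cl Y σ₀) : σ * sw L z y ∈ Cl Y σ₀ := by
  rw [mem_Cl] at hσ ⊢
  intro x hx
  rw [Equiv.Perm.mul_apply, sw_const h (x := x), hσ x hx]
  unfold cs
  exact Finset.mem_union_right _ hx

omit [Fintype K] in
theorem eq_of_mul_sw {Y : Finset K} (σ : Equiv.Perm K) {L : Finset K[X]} {z y : K}
    (h : Good L Y z y) : σ = (σ * sw L z y) * sw L z y := by
  rw [mul_assoc, sw_mul_self h, mul_one]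

theorem card_good_ge {L : Finset K[X]} {Y : Finset K} {z : K} (hz : Zok L Y z) {s x : ℕ}
    (hL : L.card ≤ s) (hX : Y.card ≤ x) {d : ℕ} (hd : ∀ f ∈ L, f.natDegree ≤ d)
    (hq : 2 * (s * (2 * s + x) * d) ≤ Fintype.card K) :
    Fintype.card K ≤ 2 * (univ.filter fun y => Good L Y z y).card := by
  have h1 := card_not_good hz hd
  have h2 : L.card * (2 * L.card + Y.card) * d ≤ s * (2 * s + x) * d :=
    Nat.mul_le_mul_right _ (Nat.mul_le_mul hL (by omega))
  have h3 : (univ.filter fun y => Good L Y z y).card +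
      (univ.filter fun y => ¬ Good L Y z y).card = Fintype.card K := by
    rw [Finset.card_filter_add_card_filter_not, Finset.card_univ]
  omega

/-- the pairs which lose general position in step `t + 1` -/
theorem bad_step (R : Alg K) (Y : Finset K) (σ₀ : Equiv.Perm K) (t s x d : ℕ) (hs : 3 * t + 3 ≤ s)
    (hX : Y.card ≤ x) (hd : ∀ σ z, ∀ f ∈ Fs R σ z (t + 1), f.natDegree ≤ d)
    (hq : 2 * (s * (2 * s + x) * d) ≤ Fintype.card K) :
    ((Cl Y σ₀ ×ˢ (univ : Finset K)).filter fun p =>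
      Zok (Hs R p.1 p.2 t) Y p.2 ∧ ¬ Zok (Fs R p.1 p.2 (t + 1)) Y p.2).card ≤
      2 * (s + x) * d * (Cl Y σ₀).card := by
  set Bd := (Cl Y σ₀ ×ˢ (univ : Finset K)).filter fun p =>
      Zok (Hs R p.1 p.2 t) Y p.2 ∧ ¬ Zok (Fs R p.1 p.2 (t + 1)) Y p.2 with hBd
  set U : Finset (Σ _ : Equiv.Perm K × K, K) :=
    Bd.sigma fun b => univ.filter fun y => Good (Hs R b.1 b.2 t) Y b.2 y with hU
  set V : Finset (Σ _ : Equiv.Perm K × K, K) :=
    (Cl Y σ₀ ×ˢ (univ : Finset K)).sigma fun p =>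
      (Hs R p.1 p.2 t ∪ Y.image (fun x => (C x : K[X]))).biUnion
        (fun f => (f - gg R p.1 p.2 t).roots.toFinset) with hV
  have hHs : ∀ σ z, (Hs R σ z t).card ≤ s := fun σ z => (card_Hs R σ z t).trans hs
  have hdH : ∀ σ z, ∀ f ∈ Hs R σ z t, f.natDegree ≤ d := fun σ z f hf =>
    hd σ z f (Hs_sub_Fs R σ z t hf)
  have hdg : ∀ σ z, (gg R σ z t).natDegree ≤ d := fun σ z =>
    hd σ z _ (by rw [Fs_succ]; exact Finset.mem_insert_self _ _)
  -- lower bound for `U`
  have h1 : Fintype.card K * Bd.card ≤ 2 * U.card := by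
    rw [hU, Finset.card_sigma, Finset.mul_sum, mul_comm, ← smul_eq_mul,
      ← Finset.sum_const]
    refine Finset.sum_le_sum fun b hb => ?_
    rw [hBd, Finset.mem_filter] at hb
    exact card_good_ge hb.2.1 (hHs _ _) hX (hdH _ _) hq
  -- upper bound for `V`
  have h2 : V.card ≤ (Cl Y σ₀).card * Fintype.card K * ((s + x) * d) := by
    rw [hV, Finset.card_sigma]
    have : ∀ p ∈ Cl Y σ₀ ×ˢ (univ : Finset K),
        ((Hs R p.1 p.2 t ∪ Y.image (fun x => (C x : K[X]))).biUnion
          (fun f => (f - gg R p.1 p.2 t).roots.toFinset)).card ≤ (s + x) * d := by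
      intro p _
      refine (Finset.card_biUnion_le_card_mul _ _ d ?_).trans (Nat.mul_le_mul_right _ ?_)
      · intro f hf
        refine card_roots_sub ?_ (hdg _ _)
        rw [Finset.mem_union, Finset.mem_image] at hf
        rcases hf with hf | ⟨a, -, rfl⟩
        · exact hdH _ _ f hf
        · rw [natDegree_C]
          exact Nat.zero_le _
      · refine (Finset.card_union_le _ _).trans (Nat.add_le_add (hHs _ _) ?_)
        exact Finset.card_image_le.trans hX
    refine (Finset.sum_le_card_nsmul _ _ _ this).trans ?_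
    rw [Finset.card_product, Finset.card_univ, smul_eq_mul]
  -- collisions
  have hcol : ∀ b ∈ Bd, b.2 ∈ (Hs R b.1 b.2 t ∪ Y.image (fun x => (C x : K[X]))).biUnion
      (fun f => (f - gg R b.1 b.2 t).roots.toFinset) := by
    intro b hb
    rw [hBd, Finset.mem_filter] at hb
    obtain ⟨f, hf, hne, he⟩ := collide (g := gg R b.1 b.2 t) hb.2.1
      (by rw [← Fs_succ]; exact hb.2.2)
    rw [Finset.mem_biUnion]
    exact ⟨f, hf, mem_roots_sub hne he⟩
  -- the injection
  have h3 : U.card ≤ V.card := by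
    refine Finset.card_le_card_of_injOn
      (fun u => ⟨(u.1.1 * sw (Hs R u.1.1 u.1.2 t) u.1.2 u.2, u.2), u.1.2⟩) ?_ ?_
    · intro u hu
      have hu := Finset.mem_sigma.mp (Finset.mem_coe.mp hu)
      obtain ⟨hb, hg⟩ := hu
      have hg := (Finset.mem_filter.mp hg).2
      rw [Finset.mem_coe, hV, Finset.mem_sigma]
      have hb' := hb
      rw [hBd, Finset.mem_filter, Finset.mem_product] at hb'
      refine ⟨Finset.mem_product.mpr ⟨mul_sw_mem hg hb'.1.1, Finset.mem_univ _⟩, ?_⟩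
      simp only
      rw [(transport_half hg).1, (transport_half hg).2]
      exact hcol _ hb
    · intro u hu u' hu' he
      have hu := Finset.mem_sigma.mp (Finset.mem_coe.mp hu)
      have hu' := Finset.mem_sigma.mp (Finset.mem_coe.mp hu')
      obtain ⟨hb, hg⟩ := hu
      obtain ⟨hb', hg'⟩ := hu'
      have hg := (Finset.mem_filter.mp hg).2
      have hg' := (Finset.mem_filter.mp hg').2
      obtain ⟨⟨σ, z⟩, y⟩ := u
      obtain ⟨⟨σ', z'⟩, y'⟩ := u'
      simp only [Sigma.mk.injEq, Prod.mk.injEq, heq_eq_eq] at he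
      obtain ⟨⟨he1, he2⟩, he3⟩ := he
      simp only at hg hg'
      subst he2
      have hH : Hs R σ z t = Hs R σ' z' t := by
        rw [← (transport_half hg).1, ← (transport_half hg').1, he1]
      subst he3
      have hσ : σ = σ' := by
        have e1 := eq_of_mul_sw σ hg
        have e2 := eq_of_mul_sw σ' hg'
        rw [e1, e2, he1, hH]
      subst hσ
      rfl
  have hq0 : 0 < Fintype.card K := Fintype.card_pos
  have h4 : Fintype.card K * Bd.card ≤ Fintype.card K * (2 * (s + x) * d * (Cl Y σ₀).card) := by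
    calc _ ≤ 2 * U.card := h1
      _ ≤ 2 * V.card := by omega
      _ ≤ 2 * ((Cl Y σ₀).card * Fintype.card K * ((s + x) * d)) := by omega
      _ = _ := by ring
  exact Nat.le_of_mul_le_mul_left h4 hq0

/-- the pairs which are not in general position after `T` steps -/
theorem bad_total (R : Alg K) (Y : Finset K) (σ₀ : Equiv.Perm K) (T s x d : ℕ) (hs : 3 * T + 1 ≤ s)
    (hX : Y.card ≤ x) (hd1 : 1 ≤ d) (hd : ∀ σ z, ∀ f ∈ Fs R σ z T, f.natDegree ≤ d)
    (hq : 2 * (s * (2 * s + x) * d) ≤ Fintype.card K) :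
    ((Cl Y σ₀ ×ˢ (univ : Finset K)).filter fun p =>
      ¬ Zok (Fs R p.1 p.2 T) Y p.2).card ≤ (2 * T + 1) * (s + x) * d * (Cl Y σ₀).card := by
  induction T with
  | zero =>
    have h1 : ((Cl Y σ₀ ×ˢ (univ : Finset K)).filter fun p =>
        ¬ Zok (Fs R p.1 p.2 0) Y p.2) ⊆ Cl Y σ₀ ×ˢ Y := by
      intro p hp
      rw [Finset.mem_filter, Finset.mem_product] at hp
      rw [Finset.mem_product]
      refine ⟨hp.1.1, ?_⟩
      by_contra hpX
      apply hp.2
      rw [Fs_zero]
      have hn : nc ({Polynomial.X} : Finset K[X]) = {Polynomial.X} := by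
        simp [nc, Finset.filter_singleton]
      refine ⟨?_, ?_⟩
      · rw [hn]
        intro f hf g hg _
        rw [Finset.mem_singleton] at hf hg
        rw [hf, hg]
      · rw [hn]
        intro f hf
        rw [Finset.mem_singleton] at hf
        subst hf
        unfold cs
        rw [Finset.mem_union, Finset.mem_image]
        rintro (⟨k, hk, -⟩ | hc)
        · rw [Finset.mem_filter, Finset.mem_singleton] at hk
          obtain ⟨rfl, hk⟩ := hk
          rw [natDegree_X] at hk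
          exact one_ne_zero hk
        · simp [ev] at hc
          exact hpX hc
    refine (Finset.card_le_card h1).trans ?_
    rw [Finset.card_product]
    calc _ ≤ (Cl Y σ₀).card * ((s + x) * d) := Nat.mul_le_mul_left _ (by nlinarith)
      _ = _ := by ring
  | succ T ih =>
    have ih := ih (by omega) (fun σ z f hf => hd σ z f (Fs_mono R σ z (Nat.le_succ T) hf))
    have h2 := bad_step R Y σ₀ T s x d (by omega) hX hd hq
    have h3 : ((Cl Y σ₀ ×ˢ (univ : Finset K)).filter fun p =>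
        ¬ Zok (Fs R p.1 p.2 (T + 1)) Y p.2) ⊆
        ((Cl Y σ₀ ×ˢ (univ : Finset K)).filter fun p => ¬ Zok (Fs R p.1 p.2 T) Y p.2) ∪
        ((Cl Y σ₀ ×ˢ (univ : Finset K)).filter fun p =>
          Zok (Hs R p.1 p.2 T) Y p.2 ∧ ¬ Zok (Fs R p.1 p.2 (T + 1)) Y p.2) := by
      intro p hp
      rw [Finset.mem_filter] at hp
      rw [Finset.mem_union, Finset.mem_filter, Finset.mem_filter]
      by_cases hz : Zok (Fs R p.1 p.2 T) Y p.2
      · exact Or.inr ⟨hp.1, zok_Hs hz, hp.2⟩
      · exact Or.inl ⟨hp.1, hz⟩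
    refine (Finset.card_le_card h3).trans ((Finset.card_union_le _ _).trans ?_)
    calc _ ≤ (2 * T + 1) * (s + x) * d * (Cl Y σ₀).card + 2 * (s + x) * d * (Cl Y σ₀).card :=
          Nat.add_le_add ih h2
      _ = _ := by ring

/-- YES answers inside `B` are at most YES answers outside `B` plus the triples in bad position. -/
theorem yes_le (R : Alg K) (Y : Finset K) (σ₀ : Equiv.Perm K) (T s x d : ℕ) (hs : 3 * T + 1 ≤ s)
    (hX : Y.card ≤ x) (hd1 : 1 ≤ d) (hd : ∀ σ z, ∀ f ∈ Fs R σ z T, f.natDegree ≤ d)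
    (hq : 2 * (s * (2 * s + x) * d) ≤ Fintype.card K) (B : Finset K) :
    (∑ σ ∈ Cl Y σ₀, (B.filter fun z => run R σ T z = true).card) * (Bᶜ).card ≤
      (∑ σ ∈ Cl Y σ₀, ((Bᶜ).filter fun z => run R σ T z = true).card) * B.card +
      ((Bᶜ).card * ((2 * T + 1) * (s + x) * d * (Cl Y σ₀).card) +
        (Cl Y σ₀).card * B.card * (s * (2 * s + x) * d)) := by
  set P1 : Finset ((Equiv.Perm K × K) × K) := ((Cl Y σ₀ ×ˢ B) ×ˢ Bᶜ).filter
    fun p => run R p.1.1 T p.1.2 = true with hP1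
  set P2 : Finset ((Equiv.Perm K × K) × K) := ((Cl Y σ₀ ×ˢ B) ×ˢ Bᶜ).filter
    fun p => run R p.1.1 T p.2 = true with hP2
  set E : Finset (Equiv.Perm K × K) := (Cl Y σ₀ ×ˢ (univ : Finset K)).filter
    fun p => ¬ Zok (Fs R p.1 p.2 T) Y p.2 with hE
  set N : Finset ((Equiv.Perm K × K) × K) := ((Cl Y σ₀ ×ˢ B) ×ˢ Bᶜ).filter
    fun p => Zok (Fs R p.1.1 p.1.2 T) Y p.1.2 ∧ ¬ Good (Fs R p.1.1 p.1.2 T) Y p.1.2 p.2 with hN
  have c1 : P1.card = (∑ σ ∈ Cl Y σ₀, (B.filter fun z => run R σ T z = true).card) *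
      (Bᶜ).card := by
    have : P1 = ((Cl Y σ₀ ×ˢ B).filter fun p => run R p.1 T p.2 = true) ×ˢ Bᶜ := by
      ext p
      simp only [hP1, Finset.mem_filter, Finset.mem_product]
      tauto
    rw [this, Finset.card_product]
    congr 1
    rw [Finset.card_filter, Finset.sum_product]
    refine Finset.sum_congr rfl fun σ _ => ?_
    rw [Finset.card_filter]
  have c2 : P2.card = (∑ σ ∈ Cl Y σ₀, ((Bᶜ).filter fun z => run R σ T z = true).card) *
      B.card := by
    rw [hP2, Finset.card_filter, Finset.sum_product, Finset.sum_product, Finset.sum_mul]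
    refine Finset.sum_congr rfl fun σ _ => ?_
    change (∑ _y ∈ B, ∑ y ∈ Bᶜ, if run R σ T y = true then 1 else 0) = _
    rw [Finset.card_filter, Finset.sum_const, smul_eq_mul, mul_comm]
  have cE : E.card ≤ (2 * T + 1) * (s + x) * d * (Cl Y σ₀).card := bad_total R Y σ₀ T s x d hs hX hd1 hd hq
  have cN : N.card ≤ (Cl Y σ₀).card * B.card * (s * (2 * s + x) * d) := by
    rw [hN, Finset.card_filter, Finset.sum_product]
    have h1 : ∀ p ∈ Cl Y σ₀ ×ˢ B, (∑ y ∈ Bᶜ, if Zok (Fs R p.1 p.2 T) Y p.2 ∧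
        ¬ Good (Fs R p.1 p.2 T) Y p.2 y then 1 else 0) ≤ s * (2 * s + x) * d := by
      intro p _
      rw [← Finset.card_filter]
      by_cases hz : Zok (Fs R p.1 p.2 T) Y p.2
      · have h2 : ((Bᶜ).filter fun y => Zok (Fs R p.1 p.2 T) Y p.2 ∧
            ¬ Good (Fs R p.1 p.2 T) Y p.2 y) ⊆
            univ.filter fun y => ¬ Good (Fs R p.1 p.2 T) Y p.2 y := by
          intro y hy
          rw [Finset.mem_filter] at hy ⊢
          exact ⟨Finset.mem_univ _, hy.2.2⟩
        refine (Finset.card_le_card h2).trans ((card_not_good hz (hd _ _)).trans ?_)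
        have h3 : (Fs R p.1 p.2 T).card ≤ s := (card_Fs R p.1 p.2 T).trans hs
        exact Nat.mul_le_mul_right _ (Nat.mul_le_mul h3 (by omega))
      · have h2 : ((Bᶜ).filter fun y => Zok (Fs R p.1 p.2 T) Y p.2 ∧
            ¬ Good (Fs R p.1 p.2 T) Y p.2 y) = ∅ := by
          apply Finset.filter_eq_empty_iff.mpr
          intro y _ h
          exact hz h.1
        rw [h2, Finset.card_empty]
        exact Nat.zero_le _
    refine (Finset.sum_le_card_nsmul _ _ _ h1).trans ?_
    rw [Finset.card_product, smul_eq_mul]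
  -- the decomposition
  have h1 : P1 ⊆ (P1.filter fun p => Good (Fs R p.1.1 p.1.2 T) Y p.1.2 p.2) ∪
      ((E ×ˢ Bᶜ) ∪ N) := by
    intro p hp
    have hp' := hp
    rw [hP1, Finset.mem_filter, Finset.mem_product, Finset.mem_product] at hp'
    rw [Finset.mem_union, Finset.mem_union]
    by_cases hg : Good (Fs R p.1.1 p.1.2 T) Y p.1.2 p.2
    · exact Or.inl (Finset.mem_filter.mpr ⟨hp, hg⟩)
    by_cases hz : Zok (Fs R p.1.1 p.1.2 T) Y p.1.2
    · refine Or.inr (Or.inr ?_)
      rw [hN, Finset.mem_filter, Finset.mem_product, Finset.mem_product]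
      exact ⟨hp'.1, hz, hg⟩
    · refine Or.inr (Or.inl ?_)
      rw [Finset.mem_product, hE, Finset.mem_filter, Finset.mem_product]
      exact ⟨⟨⟨hp'.1.1.1, Finset.mem_univ _⟩, hz⟩, hp'.1.2⟩
  have h2 : (P1.filter fun p => Good (Fs R p.1.1 p.1.2 T) Y p.1.2 p.2).card ≤ P2.card := by
    refine Finset.card_le_card_of_injOn
      (fun p => ((p.1.1 * sw (Fs R p.1.1 p.1.2 T) p.1.2 p.2, p.1.2), p.2)) ?_ ?_
    · intro p hp
      rw [Finset.mem_coe, Finset.mem_filter, hP1, Finset.mem_filter, Finset.mem_product,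
        Finset.mem_product] at hp
      obtain ⟨⟨⟨⟨h3, h4⟩, h5⟩, h6⟩, hg⟩ := hp
      rw [Finset.mem_coe, hP2, Finset.mem_filter, Finset.mem_product, Finset.mem_product]
      refine ⟨⟨⟨mul_sw_mem hg h3, h4⟩, h5⟩, ?_⟩
      simp only
      rw [(transport_run hg).1, h6]
    · intro p hp p' hp' he
      rw [Finset.mem_coe, Finset.mem_filter] at hp hp'
      obtain ⟨⟨σ, z⟩, y⟩ := p
      obtain ⟨⟨σ', z'⟩, y'⟩ := p'
      simp only [Prod.mk.injEq] at he
      obtain ⟨⟨he1, rfl⟩, rfl⟩ := he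
      have hg := hp.2
      have hg' := hp'.2
      simp only at hg hg'
      have hH : Fs R σ z T = Fs R σ' z T := by
        rw [← (transport_run hg).2, ← (transport_run hg').2, he1]
      have hσ : σ = σ' := by
        have e1 := eq_of_mul_sw σ hg
        have e2 := eq_of_mul_sw σ' hg'
        rw [e1, e2, he1, hH]
      subst hσ
      rfl
  rw [← c1, ← c2]
  have h3 := Finset.card_le_card h1
  have h4 := Finset.card_union_le (P1.filter fun p => Good (Fs R p.1.1 p.1.2 T) Y p.1.2 p.2)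
    ((E ×ˢ Bᶜ) ∪ N)
  have h5 := Finset.card_union_le (E ×ˢ Bᶜ) N
  rw [Finset.card_product] at h5
  have h6 : E.card * (Bᶜ).card ≤ (Bᶜ).card * ((2 * T + 1) * (s + x) * d * (Cl Y σ₀).card) := by
    rw [mul_comm]
    exact Nat.mul_le_mul_left _ cE
  omega

end GFM
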