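import Mathlib

/-!
# Generic data structures for 3SUM-Indexing with multiplications, low degree

The elements of a finite field `K` (for instance the integers modulo a prime) are only visible through
labels; the labelling is a bijection `σ` of `K` with the set of labels, and the set of labels is `K`
itself, regarded as a set of names without any structure. The oracle computes with labels: besides linear
combinations also products.
-/

set_option autoImplicit false

namespace GFM

/-- An oracle call `(u, v, m, c, d, e)`: the label of `m x y + c x + d y + e` is requested, where `x` and
`y` are the elements with labels `u` and `v`. It is a multiplication if `m` is not zero. -/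
structure Call (K : Type) where
  /-- first label -/
  u : K
  /-- second label -/
  v : K
  /-- coefficient of the product -/
  m : K
  /-- first coefficient -/
  c : K
  /-- second coefficient -/
  d : K
  /-- constant -/
  e : K

/-- A query algorithm (for fixed memory and fixed coins): from the label of the query and the list of
the labels received so far (the last one first) it computes the next oracle call, and at the end
the answer. -/
structure Alg (K : Type) where
  /-- the next oracle call -/
  next : K → List K → Call K
  /-- the final answer -/
  out : K → List K → Bool

variable {K : Type} [Field K]

/-- The reply of the oracle. -/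
def reply (σ : Equiv.Perm K) (o : Call K) : K :=
  σ (o.m * (σ.symm o.u * σ.symm o.v) + o.c * σ.symm o.u + o.d * σ.symm o.v + o.e)

/-- The labels received in the first `t` oracle calls, when the label of the query is `ζ`. -/
def answers (R : Alg K) (σ : Equiv.Perm K) (ζ : K) : ℕ → List K
  | 0 => []
  | t + 1 => reply σ (R.next ζ (answers R σ ζ t)) :: answers R σ ζ t

/-- The answer to the query `z` after `T` oracle calls. The algorithm only receives the label of `z`. -/
def run (R : Alg K) (σ : Equiv.Perm K) (T : ℕ) (z : K) : Bool :=
  R.out (σ z) (answers R σ (σ z) T)

/-- The formal degree of the label `u` according to the table `L`; it is `0` for a label which does not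
occur in the table. -/
def look [DecidableEq K] : List (K × ℕ) → K → ℕ
  | [], _ => 0
  | q :: L, u => if q.1 = u then q.2 else look L u

/-- The table of the formal degrees when the list of the labels received is `l`: the label of the query
has degree `1`, the reply to a call has the sum of the degrees of the two labels if the call is a
multiplication, and the maximum if it is not. -/
def degs [DecidableEq K] (R : Alg K) (ζ : K) : List K → List (K × ℕ)
  | [] => [(ζ, 1)]
  | a :: l => (a, if (R.next ζ l).m = 0 then
      max (look (degs R ζ l) (R.next ζ l).u) (look (degs R ζ l) (R.next ζ l).v)
      else look (degs R ζ l) (R.next ζ l).u + look (degs R ζ l) (R.next ζ l).v) :: degs R ζ l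

/-- A data structure with `S` bits of memory and public coins in `Ω`: the memory is an arbitrary function
of the coins and of the whole labelling; the query algorithm sees the coins and the whole memory. -/
structure DataStructure (K : Type) (S : ℕ) (Ω : Type) where
  /-- preprocessing: the content of the memory -/
  pre : Ω → Equiv.Perm K → Fin (2 ^ S)
  /-- the query algorithm, given the coins and the memory -/
  query : Ω → Fin (2 ^ S) → Alg K

variable [Fintype K] [DecidableEq K]

/-- The probability that the answer to the question `z ∈ B` is right, if `z` is uniformly distributed in
`B` with probability `1/2` and in the complement of `B` with probability `1/2`. -/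
noncomputable def hit (R : Alg K) (σ : Equiv.Perm K) (T : ℕ) (B : Finset K) : ℝ :=
  (((B.filter fun z => run R σ T z = true).card : ℝ) / B.card +
    ((Bᶜ.filter fun z => run R σ T z = false).card : ℝ) / (Bᶜ).card) / 2

/-- The average of the success probability over all coins and all labellings. -/
noncomputable def success {S : ℕ} {Ω : Type} [Fintype Ω] (D : DataStructure K S Ω) (T : ℕ)
    (B : Finset K) : ℝ :=
  (∑ ω, ∑ σ, hit (D.query ω (D.pre ω σ)) σ T B) /
    (Fintype.card Ω * Fintype.card (Equiv.Perm K))

/-- In every run of the data structure, for all coins, labellings and queries, the formal degrees are
at most `d`. -/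
def LowRuns {S : ℕ} {Ω : Type} (D : DataStructure K S Ω) (T d : ℕ) : Prop :=
  ∀ (ω : Ω) (σ : Equiv.Perm K) (z : K),
    ∀ q ∈ degs (D.query ω (D.pre ω σ)) (σ z) (answers (D.query ω (D.pre ω σ)) σ (σ z) T), q.2 ≤ d

end GFM
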