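import Pool.Agent.H.MP_0427c5_lc.fm.Trace

/-!
# 3SUM-Indexing with multiplications: degrees
-/

set_option autoImplicit false

namespace GFM

open Polynomial
open scoped Classical

variable {K : Type} [Field K]

theorem deg_comb {P Q : K[X]} {m c d e : K} {N : ℕ} (h : m ≠ 0 → P.natDegree + Q.natDegree ≤ N)
    (hP : P.natDegree ≤ N) (hQ : Q.natDegree ≤ N) :
    (C m * (P * Q) + C c * P + C d * Q + C e).natDegree ≤ N := by
  have h1 : (C m * (P * Q)).natDegree ≤ N := by
    by_cases hm : m = 0
    · rw [hm, C_0, zero_mul, natDegree_zero]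
      exact Nat.zero_le _
    · exact (natDegree_C_mul_le _ _).trans (natDegree_mul_le.trans (h hm))
  have h2 : (C c * P).natDegree ≤ N := (natDegree_C_mul_le _ _).trans hP
  have h3 : (C d * Q).natDegree ≤ N := (natDegree_C_mul_le _ _).trans hQ
  have h4 : (C e : K[X]).natDegree ≤ N := by
    rw [natDegree_C]
    exact Nat.zero_le _
  exact natDegree_add_le_of_degree_le (natDegree_add_le_of_degree_le
    (natDegree_add_le_of_degree_le h1 h2) h3) h4

variable [DecidableEq K]

/-- the formal degree of a call -/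
def cdeg (R : Alg K) (ζ : K) (l : List K) : ℕ :=
  if (R.next ζ l).m = 0 then
    max (look (degs R ζ l) (R.next ζ l).u) (look (degs R ζ l) (R.next ζ l).v)
  else look (degs R ζ l) (R.next ζ l).u + look (degs R ζ l) (R.next ζ l).v

omit [Field K] in
theorem look_le {L : List (K × ℕ)} {d : ℕ} (h : ∀ q ∈ L, q.2 ≤ d) (u : K) : look L u ≤ d := by
  induction L with
  | nil => exact Nat.zero_le _
  | cons q L ih =>
    unfold look
    split_ifs with h1
    · exact h q List.mem_cons_self
    · exact ih fun r hr => h r (List.mem_cons_of_mem _ hr)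

theorem degs_cons (R : Alg K) (ζ a : K) (l : List K) :
    degs R ζ (a :: l) = (a, cdeg R ζ l) :: degs R ζ l := rfl

/-- the degree of a form is at most the formal degree of its label -/
theorem deg_lk (R : Alg K) (σ : Equiv.Perm K) (z : K) (t : ℕ) (u : K) :
    (lk σ (st R σ z t).2 u).natDegree ≤ look (degs R (σ z) (st R σ z t).1) u := by
  induction t generalizing u with
  | zero =>
    change (lk σ [(σ z, (Polynomial.X : K[X]))] u).natDegree ≤ look [(σ z, 1)] u
    unfold lk fnd look
    split_ifs with h1
    · exact natDegree_X_le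
    · change (C (σ.symm u) : K[X]).natDegree ≤ _
      rw [natDegree_C]
      exact Nat.zero_le _
  | succ t ih =>
    have hgg : (gg R σ z t).natDegree ≤ cdeg R (σ z) (st R σ z t).1 := by
      have hu := ih (cl R σ z t).u
      have hv := ih (cl R σ z t).v
      have hc : cdeg R (σ z) (st R σ z t).1 = if (cl R σ z t).m = 0 then
          max (look (degs R (σ z) (st R σ z t).1) (cl R σ z t).u)
            (look (degs R (σ z) (st R σ z t).1) (cl R σ z t).v)
          else look (degs R (σ z) (st R σ z t).1) (cl R σ z t).u +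
            look (degs R (σ z) (st R σ z t).1) (cl R σ z t).v := rfl
      rw [hc]
      unfold gg
      by_cases hm : (cl R σ z t).m = 0
      · rw [if_pos hm]
        exact deg_comb (fun h => absurd hm h) (hu.trans (le_max_left _ _)) (hv.trans (le_max_right _ _))
      · rw [if_neg hm]
        exact deg_comb (fun _ => Nat.add_le_add hu hv) (hu.trans (Nat.le_add_right _ _))
          (hv.trans (Nat.le_add_left _ _))
    rw [st_succ]
    change (lk σ ((σ (ev (gg R σ z t) z), gg R σ z t) :: ((cl R σ z t).v, fv R σ z t) ::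
        ((cl R σ z t).u, fu R σ z t) :: (st R σ z t).2) u).natDegree ≤
      look ((σ (ev (gg R σ z t) z), cdeg R (σ z) (st R σ z t).1) :: degs R (σ z) (st R σ z t).1) u
    unfold lk fnd look
    split_ifs with h1
    · exact hgg
    · unfold fnd
      split_ifs with h2
      · change (fv R σ z t).natDegree ≤ _
        have h3 : (cl R σ z t).v = u := h2
        rw [← h3]
        exact ih _
      · unfold fnd
        split_ifs with h3
        · change (fu R σ z t).natDegree ≤ _
          have h4 : (cl R σ z t).u = u := h3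
          rw [← h4]
          exact ih _
        · exact ih u

theorem deg_Fs {R : Alg K} {σ : Equiv.Perm K} {z : K} {t d : ℕ}
    (h : ∀ q ∈ degs R (σ z) (st R σ z t).1, q.2 ≤ d) : ∀ f ∈ Fs R σ z t, f.natDegree ≤ d := by
  induction t with
  | zero =>
    intro f hf
    rw [Fs_zero, Finset.mem_singleton] at hf
    rw [hf]
    refine natDegree_X_le.trans ?_
    exact h (σ z, 1) (by simp [st, degs])
  | succ t ih =>
    rw [st_succ] at h
    change ∀ q ∈ degs R (σ z) (σ (ev (gg R σ z t) z) :: (st R σ z t).1), q.2 ≤ d at h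
    rw [degs_cons] at h
    have h' : ∀ q ∈ degs R (σ z) (st R σ z t).1, q.2 ≤ d := fun q hq =>
      h q (List.mem_cons_of_mem _ hq)
    have hlk : ∀ u, (lk σ (st R σ z t).2 u).natDegree ≤ d := fun u =>
      (deg_lk R σ z t u).trans (look_le h' u)
    intro f hf
    rw [Fs_succ, Finset.mem_insert] at hf
    rcases hf with hf | hf
    · rw [hf]
      have h1 : (gg R σ z t).natDegree ≤ look (degs R (σ z) (st R σ z (t + 1)).1)
          (σ (ev (gg R σ z t) z)) := by
        have h2 := deg_lk R σ z (t + 1) (σ (ev (gg R σ z t) z))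
        have h3 : lk σ (st R σ z (t + 1)).2 (σ (ev (gg R σ z t) z)) = gg R σ z t := by
          rw [st_succ]
          unfold lk fnd
          rw [if_pos rfl]
          rfl
        rwa [h3] at h2
      refine h1.trans (look_le ?_ _)
      rw [st_succ]
      exact h
    · unfold Hs at hf
      rw [Finset.mem_insert, Finset.mem_insert] at hf
      rcases hf with hf | hf | hf
      · rw [hf]
        exact hlk _
      · rw [hf]
        exact hlk _
      · exact ih h' f hf

/-- all formal degrees are at most `d`, whatever the replies are -/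
def Low (R : Alg K) (d : ℕ) : Prop := ∀ (ζ : K) (l : List K), ∀ q ∈ degs R ζ l, q.2 ≤ d

theorem deg_le {R : Alg K} {d : ℕ} (hR : Low R d) (T : ℕ) (σ : Equiv.Perm K) (z : K) :
    ∀ f ∈ Fs R σ z T, f.natDegree ≤ d := deg_Fs (hR _ _)

/-- the algorithm stops when the formal degree exceeds `d` -/
noncomputable def cap (R : Alg K) (d : ℕ) : Alg K where
  next := fun ζ l => if (∀ q ∈ degs R ζ l, q.2 ≤ d) ∧ cdeg R ζ l ≤ d then R.next ζ l
    else ⟨ζ, ζ, 0, 0, 0, 0⟩
  out := R.out

theorem cap_degs {R : Alg K} {d : ℕ} {ζ : K} (l : List K) (h : ∀ q ∈ degs R ζ l, q.2 ≤ d) :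
    degs (cap R d) ζ l = degs R ζ l := by
  induction l with
  | nil => rfl
  | cons a l ih =>
    rw [degs_cons] at h
    have h' : ∀ q ∈ degs R ζ l, q.2 ≤ d := fun q hq => h q (List.mem_cons_of_mem _ hq)
    have h1 : cdeg R ζ l ≤ d := h (a, cdeg R ζ l) List.mem_cons_self
    have h2 : (cap R d).next ζ l = R.next ζ l := if_pos ⟨h', h1⟩
    rw [degs_cons, degs_cons, ih h']
    have h3 : cdeg (cap R d) ζ l = cdeg R ζ l := by
      unfold cdeg
      rw [h2, ih h']
    rw [h3]

theorem cap_low (R : Alg K) {d : ℕ} (hd : 1 ≤ d) : Low (cap R d) d := by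
  intro ζ l
  induction l with
  | nil =>
    intro q hq
    have : q = (ζ, 1) := by simpa [degs] using hq
    rw [this]
    exact hd
  | cons a l ih =>
    intro q hq
    rw [degs_cons] at hq
    rcases List.mem_cons.mp hq with hq | hq
    · rw [hq]
      change cdeg (cap R d) ζ l ≤ d
      by_cases hc : (∀ q ∈ degs R ζ l, q.2 ≤ d) ∧ cdeg R ζ l ≤ d
      · have h2 : (cap R d).next ζ l = R.next ζ l := if_pos hc
        have h3 : cdeg (cap R d) ζ l = cdeg R ζ l := by
          unfold cdeg
          rw [h2, cap_degs l hc.1]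
        rw [h3]
        exact hc.2
      · have h2 : (cap R d).next ζ l = ⟨ζ, ζ, 0, 0, 0, 0⟩ := if_neg hc
        unfold cdeg
        rw [h2, if_pos rfl]
        exact max_le (look_le ih _) (look_le ih _)
    · exact ih q hq

theorem cap_answers {R : Alg K} {d : ℕ} {σ : Equiv.Perm K} {ζ : K} (t : ℕ)
    (h : ∀ q ∈ degs R ζ (answers R σ ζ t), q.2 ≤ d) :
    answers (cap R d) σ ζ t = answers R σ ζ t := by
  induction t with
  | zero => rfl
  | succ t ih =>
    rw [answers, degs_cons] at h
    have h' : ∀ q ∈ degs R ζ (answers R σ ζ t), q.2 ≤ d := fun q hq =>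
      h q (List.mem_cons_of_mem _ hq)
    have h1 : cdeg R ζ (answers R σ ζ t) ≤ d := h (_, cdeg R ζ (answers R σ ζ t)) List.mem_cons_self
    have h2 : (cap R d).next ζ (answers R σ ζ t) = R.next ζ (answers R σ ζ t) := if_pos ⟨h', h1⟩
    rw [answers, answers, ih h', h2]

theorem cap_run {R : Alg K} {d : ℕ} {σ : Equiv.Perm K} {z : K} {T : ℕ}
    (h : ∀ q ∈ degs R (σ z) (answers R σ (σ z) T), q.2 ≤ d) :
    run (cap R d) σ T z = run R σ T z := by
  unfold run
  rw [cap_answers T h]
  rfl

end GFM
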