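import Pool.Agent.H.MP_0427c5_lc.fm.Step

/-!
# 3SUM-Indexing with multiplications and hash functions: moments of the success probability for a fixed memory
-/

set_option autoImplicit false

namespace GFM

open Finset Polynomial
open scoped Classical

variable {K : Type} [Field K] [Fintype K] {U : Type} [Fintype U]

/-- The success probability in one class: `B` are the yes instances, `N` the no instances. -/
noncomputable def hitN (R : Alg K) (σ : Equiv.Perm K) (T : ℕ) (B N : Finset K) : ℝ :=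
  (((B.filter fun z => run R σ T z = true).card : ℝ) / B.card +
    ((N.filter fun z => run R σ T z = false).card : ℝ) / N.card) / 2

theorem hitN_nonneg (R : Alg K) (σ : Equiv.Perm K) (T : ℕ) (B N : Finset K) :
    0 ≤ hitN R σ T B N := by
  unfold hitN
  positivity

theorem hitN_le_one (R : Alg K) (σ : Equiv.Perm K) (T : ℕ) (B N : Finset K) :
    hitN R σ T B N ≤ 1 := by
  unfold hitN
  have h1 : ((B.filter fun z => run R σ T z = true).card : ℝ) / B.card ≤ 1 := by
    apply div_le_one_of_le₀ _ (Nat.cast_nonneg _)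
    exact_mod_cast Finset.card_filter_le _ _
  have h2 : ((N.filter fun z => run R σ T z = false).card : ℝ) / N.card ≤ 1 := by
    apply div_le_one_of_le₀ _ (Nat.cast_nonneg _)
    exact_mod_cast Finset.card_filter_le _ _
  linarith

theorem hitN_eq (R : Alg K) (σ : Equiv.Perm K) (T : ℕ) (B N : Finset K) :
    hitN R σ T B N = ((∑ z ∈ B, ind R T z true σ) / B.card +
      (∑ z ∈ N, ind R T z false σ) / N.card) / 2 := by
  unfold hitN ind
  rw [Finset.sum_boole, Finset.sum_boole]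

/-- The success probability, all classes together. -/
noncomputable def hitF (R : U → Alg K) (σ : Equiv.Perm K) (T : ℕ) (B N : U → Finset K) : ℝ :=
  (∑ u, ((B u).card : ℝ) * hitN (R u) σ T (B u) (N u)) / ∑ u, ((B u).card : ℝ)

/-- first moment, one class -/
theorem hit_sumB (R : Alg K) (X : Finset K) (σ₀ : Equiv.Perm K) (T s x d : ℕ) (hs : 3 * T + 1 ≤ s)
    (hX : X.card ≤ x) (hd : ∀ σ z, ∀ f ∈ Fs R σ z T, f.natDegree ≤ d) (B N : Finset K) (β : ℕ) (hβ : 0 < β)
    (hβ' : B.Nonempty → β ≤ N.card) :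
    (B.card : ℝ) * ∑ σ ∈ Cl X σ₀, hitN R σ T B N ≤
      (B.card * (Cl X σ₀).card +
        (((Cl X σ₀ ×ˢ B).filter fun p => ¬ Zok (Fs R p.1 p.2 T) X p.2).card : ℝ) +
        (Cl X σ₀).card * ((s * (2 * s + x) * d : ℕ) : ℝ) * B.card / β) / 2 := by
  rcases Nat.eq_zero_or_pos B.card with hB | hB
  · rw [hB, Nat.cast_zero, zero_mul]
    positivity
  have hβ' := hβ' (Finset.card_pos.mp hB)
  have h0 := yes_leB R X σ₀ T s x d hs hX hd B N
  set A : ℕ := ∑ σ ∈ Cl X σ₀, (B.filter fun z => run R σ T z = true).card with hA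
  set A' : ℕ := ∑ σ ∈ Cl X σ₀, (N.filter fun z => run R σ T z = true).card with hA'
  set e : ℕ := ((Cl X σ₀ ×ˢ B).filter fun p => ¬ Zok (Fs R p.1 p.2 T) X p.2).card with he
  have hb : (0 : ℝ) < B.card := by exact_mod_cast hB
  have hb' : (0 : ℝ) < N.card := by exact_mod_cast hβ.trans_le hβ'
  have hβ0 : (0 : ℝ) < β := by exact_mod_cast hβ
  have hle : (β : ℝ) ≤ N.card := by exact_mod_cast hβ'
  have h1 : ∀ σ, hitN R σ T B N = (1 + ((B.filter fun z => run R σ T z = true).card : ℝ) / B.card -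
      ((N.filter fun z => run R σ T z = true).card : ℝ) / N.card) / 2 := by
    intro σ
    have h2 : (N.filter fun z => run R σ T z = true).card +
        (N.filter fun z => run R σ T z = false).card = N.card := by
      have h3 : (N.filter fun z => run R σ T z = false) =
          N.filter fun z => ¬ (run R σ T z = true) := by
        refine Finset.filter_congr fun z _ => ?_
        simp
      rw [h3]
      exact Finset.card_filter_add_card_filter_not _
    have h4 : ((N.filter fun z => run R σ T z = false).card : ℝ) =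
        N.card - (N.filter fun z => run R σ T z = true).card := by
      have : (((N.filter fun z => run R σ T z = true).card +
        (N.filter fun z => run R σ T z = false).card : ℕ) : ℝ) = N.card := by
        rw [h2]
      push_cast at this
      linarith
    unfold hitN
    rw [h4, sub_div, div_self hb'.ne']
    ring
  have h2 : ∑ σ ∈ Cl X σ₀, hitN R σ T B N =
      ((Cl X σ₀).card + (A : ℝ) / B.card - (A' : ℝ) / N.card) / 2 := by
    rw [Finset.sum_congr rfl fun σ _ => h1 σ, ← Finset.sum_div, Finset.sum_sub_distrib,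
      Finset.sum_add_distrib, Finset.sum_const, nsmul_eq_mul, mul_one, ← Finset.sum_div,
      ← Finset.sum_div, hA, hA']
    push_cast
    rfl
  have h3 : (A : ℝ) * N.card ≤ A' * B.card +
      (N.card * (e : ℝ) + (Cl X σ₀).card * B.card * ((s * (2 * s + x) * d : ℕ) : ℝ)) := by
    exact_mod_cast h0
  have h4 : (A : ℝ) ≤ A' * B.card / N.card + e +
      (Cl X σ₀).card * ((s * (2 * s + x) * d : ℕ) : ℝ) * B.card / N.card := by
    have h5 : A' * B.card / (N.card : ℝ) + e +
        (Cl X σ₀).card * ((s * (2 * s + x) * d : ℕ) : ℝ) * B.card / N.card =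
        (A' * B.card + (N.card * (e : ℝ) +
          (Cl X σ₀).card * B.card * ((s * (2 * s + x) * d : ℕ) : ℝ))) / N.card := by
      field_simp
      ring
    rw [h5, le_div_iff₀ hb']
    exact h3
  have h7 : (Cl X σ₀).card * ((s * (2 * s + x) * d : ℕ) : ℝ) * B.card / N.card ≤
      (Cl X σ₀).card * ((s * (2 * s + x) * d : ℕ) : ℝ) * B.card / β :=
    div_le_div_of_nonneg_left (by positivity) hβ0 hle
  have h8 : (B.card : ℝ) * (((Cl X σ₀).card + (A : ℝ) / B.card - (A' : ℝ) / N.card) / 2) =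
      (B.card * (Cl X σ₀).card + A - A' * B.card / N.card) / 2 := by
    field_simp
  rw [h2, h8]
  linarith

/-- first moment -/
theorem hf_first (R : U → Alg K) (X : Finset K) (σ₀ : Equiv.Perm K) (T s x c d : ℕ)
    (hs : 3 * T + 1 ≤ s) (hX : X.card ≤ x) (hd1 : 1 ≤ d)
    (hd : ∀ u σ z, ∀ f ∈ Fs (R u) σ z T, f.natDegree ≤ d)
    (hq : 2 * (s * (2 * s + x) * d) ≤ Fintype.card K)
    (B N : U → Finset K) (hβ : 0 < ∑ u, (B u).card)
    (hB : ∀ w, (B w).Nonempty → ∑ u, (B u).card ≤ (N w).card)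
    (hc : ∀ g : U → K[X], (∀ u, (g u).natDegree ≤ d) → ∑ u, (hits (g u) X (B u)).card ≤ c) :
    ∑ σ ∈ Cl X σ₀, hitF R σ T B N ≤
      (1 + (((2 * T + 1) * (Fintype.card U * (s * d) + c) + s * (2 * s + x) * d : ℕ) : ℝ) /
        ((∑ u, (B u).card : ℕ) : ℝ)) / 2 * (Cl X σ₀).card := by
  set β : ℕ := ∑ u, (B u).card with hβd
  have hβ0 : (0 : ℝ) < β := by exact_mod_cast hβ
  have hbc : (∑ u, ((B u).card : ℝ)) = β := by
    rw [hβd]
    push_cast
    rfl
  have h1 : ∑ σ ∈ Cl X σ₀, hitF R σ T B N =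
      (∑ u, ((B u).card : ℝ) * ∑ σ ∈ Cl X σ₀, hitN (R u) σ T (B u) (N u)) / β := by
    unfold hitF
    rw [← Finset.sum_div, Finset.sum_comm, hbc]
    congr 1
    refine Finset.sum_congr rfl fun u _ => ?_
    rw [Finset.mul_sum]
  have h2 := bad_totalB R X σ₀ T s x c d hs hX hd1 hd hq B hc
  have h3 : ∑ u, ((B u).card : ℝ) * ∑ σ ∈ Cl X σ₀, hitN (R u) σ T (B u) (N u) ≤
      (β * (Cl X σ₀).card + (((2 * T + 1) * (Fintype.card U * (s * d) + c) * (Cl X σ₀).card : ℕ) : ℝ) +
        (Cl X σ₀).card * ((s * (2 * s + x) * d : ℕ) : ℝ)) / 2 := by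
    calc _ ≤ ∑ u, ((B u).card * (Cl X σ₀).card +
        (((Cl X σ₀ ×ˢ B u).filter fun p => ¬ Zok (Fs (R u) p.1 p.2 T) X p.2).card : ℝ) +
        (Cl X σ₀).card * ((s * (2 * s + x) * d : ℕ) : ℝ) * (B u).card / β) / 2 :=
          Finset.sum_le_sum fun u _ => hit_sumB (R u) X σ₀ T s x d hs hX (hd u) (B u) (N u) β hβ (hB u)
      _ = (β * (Cl X σ₀).card +
          ((∑ u, ((Cl X σ₀ ×ˢ B u).filter fun p => ¬ Zok (Fs (R u) p.1 p.2 T) X p.2).card : ℕ) : ℝ) +
          (Cl X σ₀).card * ((s * (2 * s + x) * d : ℕ) : ℝ)) / 2 := by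
          rw [← Finset.sum_div, Finset.sum_add_distrib, Finset.sum_add_distrib, ← Finset.sum_mul,
            ← Finset.sum_div, ← Finset.mul_sum, hbc, mul_div_assoc, div_self hβ0.ne', mul_one]
          push_cast
          rfl
      _ ≤ _ := by
          have : ((∑ u, ((Cl X σ₀ ×ˢ B u).filter fun p =>
              ¬ Zok (Fs (R u) p.1 p.2 T) X p.2).card : ℕ) : ℝ) ≤
              (((2 * T + 1) * (Fintype.card U * (s * d) + c) * (Cl X σ₀).card : ℕ) : ℝ) := by
            exact_mod_cast h2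
          linarith
  rw [h1, div_le_iff₀ hβ0]
  refine h3.trans (le_of_eq ?_)
  push_cast
  field_simp
  ring

theorem hitF_nonneg (R : U → Alg K) (σ : Equiv.Perm K) (T : ℕ) (B N : U → Finset K) :
    0 ≤ hitF R σ T B N := by
  unfold hitF
  refine div_nonneg (Finset.sum_nonneg fun u _ => mul_nonneg (Nat.cast_nonneg _)
    (hitN_nonneg _ _ _ _ _)) (Finset.sum_nonneg fun u _ => Nat.cast_nonneg _)

theorem hf_lin (R : U → Alg K) (X : Finset K) (σ₀ : Equiv.Perm K) (T : ℕ) (B N : U → Finset K)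
    (f : Equiv.Perm K → ℝ) :
    ∑ σ ∈ Cl X σ₀, f σ * hitF R σ T B N =
      (∑ u, ((B u).card : ℝ) * (((∑ z ∈ B u, ∑ σ ∈ Cl X σ₀, f σ * ind (R u) T z true σ) /
          (B u).card +
        (∑ z ∈ N u, ∑ σ ∈ Cl X σ₀, f σ * ind (R u) T z false σ) / (N u).card) / 2)) /
        ∑ u, ((B u).card : ℝ) := by
  have hsum : ∀ u, ∑ σ ∈ Cl X σ₀, f σ * hitN (R u) σ T (B u) (N u) =
      ((∑ z ∈ B u, ∑ σ ∈ Cl X σ₀, f σ * ind (R u) T z true σ) / (B u).card +
        (∑ z ∈ N u, ∑ σ ∈ Cl X σ₀, f σ * ind (R u) T z false σ) / (N u).card) / 2 := by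
    intro u
    rw [Finset.sum_comm (s := B u), Finset.sum_comm (s := N u), Finset.sum_div, Finset.sum_div,
      ← Finset.sum_add_distrib, Finset.sum_div]
    refine Finset.sum_congr rfl fun σ _ => ?_
    rw [hitN_eq, ← Finset.mul_sum, ← Finset.mul_sum]
    ring
  have h1 : ∀ σ, f σ * hitF R σ T B N =
      (∑ u, ((B u).card : ℝ) * (f σ * hitN (R u) σ T (B u) (N u))) / ∑ u, ((B u).card : ℝ) := by
    intro σ
    unfold hitF
    rw [mul_div_assoc', Finset.mul_sum]
    congr 1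
    refine Finset.sum_congr rfl fun u _ => ?_
    ring
  rw [Finset.sum_congr rfl fun σ _ => h1 σ, ← Finset.sum_div, Finset.sum_comm]
  congr 1
  refine Finset.sum_congr rfl fun u _ => ?_
  rw [← Finset.mul_sum, hsum]

/-- all moments -/
theorem hf_moment (R : U → Alg K) (T s M c d : ℕ) (hs : 3 * T + 1 ≤ s) (hd1 : 1 ≤ d)
    (hd : ∀ u σ z, ∀ f ∈ Fs (R u) σ z T, f.natDegree ≤ d) (B N : U → Finset K)
    (hβ : 0 < ∑ u, (B u).card) (hB : ∀ w, (B w).Nonempty → ∑ u, (B u).card ≤ (N w).card)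
    (hq : 2 * (s * s * (M + 1) * d) ≤ Fintype.card K)
    (hc : ∀ X : Finset K, X.card ≤ M * s → ∀ g : U → K[X], (∀ u, (g u).natDegree ≤ d) →
      ∑ u, (hits (g u) X (B u)).card ≤ c) (m : ℕ) :
    ∀ (X : Finset K) (σ₀ : Equiv.Perm K), X.card + m * s ≤ M * s →
      ∑ σ ∈ Cl X σ₀, hitF R σ T B N ^ m ≤
        ((1 + (((2 * T + 1) * (Fintype.card U * (s * d) + c) + s * s * (M + 1) * d : ℕ) : ℝ) /
          ((∑ u, (B u).card : ℕ) : ℝ)) / 2) ^ m * (Cl X σ₀).card := by
  set ρ : ℝ := (1 + (((2 * T + 1) * (Fintype.card U * (s * d) + c) + s * s * (M + 1) * d : ℕ) : ℝ) /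
          ((∑ u, (B u).card : ℕ) : ℝ)) / 2 with hρ
  have hρ0 : 0 ≤ ρ := by
    have h1 : 0 ≤ (((2 * T + 1) * (Fintype.card U * (s * d) + c) + s * s * (M + 1) * d : ℕ) : ℝ) /
        ((∑ u, (B u).card : ℕ) : ℝ) := div_nonneg (Nat.cast_nonneg _) (Nat.cast_nonneg _)
    rw [hρ]
    linarith
  induction m with
  | zero =>
    intro X σ₀ _
    simp
  | succ m ih =>
    intro X σ₀ hX
    have hM : 1 ≤ M := by
      by_contra hc
      have hM0 : M = 0 := by omega
      rw [hM0] at hX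
      have : 1 ≤ s := by omega
      have : 1 ≤ (m + 1) * s := Nat.mul_pos (Nat.succ_pos m) this
      omega
    obtain ⟨M', rfl⟩ : ∃ M', M = M' + 1 := ⟨M - 1, by omega⟩
    have hX2 : X.card ≤ M' * s := by
      have h1 : (m + 1) * s = m * s + s := by ring
      have h2 : (M' + 1) * s = M' * s + s := by ring
      have h3 : 0 ≤ m * s := Nat.zero_le _
      omega
    -- first moment
    have hfirst : ∑ σ ∈ Cl X σ₀, hitF R σ T B N ≤ ρ * (Cl X σ₀).card := by
      refine (hf_first R X σ₀ T s (M' * s) c d hs hX2 hd1 hd ?_ B N hβ hB (hc X ?_)).trans ?_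
      · calc 2 * (s * (2 * s + M' * s) * d) = 2 * (s * s * (M' + 1 + 1) * d) := by ring
          _ ≤ _ := hq
      · exact hX2.trans (Nat.mul_le_mul_right _ (Nat.le_succ _))
      · apply mul_le_mul_of_nonneg_right _ (Nat.cast_nonneg _)
        rw [hρ]
        have h1 : ((2 * T + 1) * (Fintype.card U * (s * d) + c) + s * (2 * s + M' * s) * d : ℕ) =
            (2 * T + 1) * (Fintype.card U * (s * d) + c) + s * s * (M' + 1 + 1) * d := by ring
        rw [h1]
    -- classes
    have hcl : ∀ (u : U) (z : K) (b : Bool),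
        ∑ σ ∈ Cl X σ₀, hitF R σ T B N ^ m * ind (R u) T z b σ ≤
        ρ ^ m * ∑ σ ∈ Cl X σ₀, ind (R u) T z b σ := by
      intro u z b
      refine fiber (R u) X σ₀ T z b (fun σ => hitF R σ T B N ^ m) (ρ ^ m) fun σ₁ _ => ?_
      apply ih
      have h1 := Finset.card_union_le X (tch (R u) σ₁ z T)
      have h2 := (card_tch (R u) σ₁ z T).trans hs
      have h3 : (m + 1) * s = m * s + s := by ring
      omega
    calc ∑ σ ∈ Cl X σ₀, hitF R σ T B N ^ (m + 1)
        = ∑ σ ∈ Cl X σ₀, hitF R σ T B N ^ m * hitF R σ T B N :=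
          Finset.sum_congr rfl fun σ _ => pow_succ _ _
      _ ≤ ρ ^ m * ∑ σ ∈ Cl X σ₀, hitF R σ T B N := by
          rw [hf_lin]
          have h1 : ∑ σ ∈ Cl X σ₀, hitF R σ T B N =
              ∑ σ ∈ Cl X σ₀, (1 : ℝ) * hitF R σ T B N :=
            Finset.sum_congr rfl fun σ _ => (one_mul _).symm
          rw [h1, hf_lin, mul_div_assoc', Finset.mul_sum]
          apply div_le_div_of_nonneg_right _ (Finset.sum_nonneg fun u _ => Nat.cast_nonneg _)
          refine Finset.sum_le_sum fun u _ => ?_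
          have h2 : ∀ (A : Finset K) (b : Bool),
              ∑ z ∈ A, ∑ σ ∈ Cl X σ₀, hitF R σ T B N ^ m * ind (R u) T z b σ ≤
              ρ ^ m * ∑ z ∈ A, ∑ σ ∈ Cl X σ₀, (1 : ℝ) * ind (R u) T z b σ := by
            intro A b
            rw [Finset.mul_sum]
            refine Finset.sum_le_sum fun z _ => ?_
            simp only [one_mul]
            exact hcl u z b
          have h3 := h2 (B u) true
          have h4 := h2 (N u) false
          have h5 : ρ ^ m * (((B u).card : ℝ) *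
              (((∑ z ∈ B u, ∑ σ ∈ Cl X σ₀, (1 : ℝ) * ind (R u) T z true σ) / (B u).card +
              (∑ z ∈ N u, ∑ σ ∈ Cl X σ₀, (1 : ℝ) * ind (R u) T z false σ) /
                (N u).card) / 2)) = ((B u).card : ℝ) *
              (((ρ ^ m * ∑ z ∈ B u, ∑ σ ∈ Cl X σ₀, (1 : ℝ) * ind (R u) T z true σ) /
                (B u).card +
              (ρ ^ m * ∑ z ∈ N u, ∑ σ ∈ Cl X σ₀, (1 : ℝ) * ind (R u) T z false σ) /
                (N u).card) / 2) := by ring
          rw [h5]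
          gcongr
      _ ≤ ρ ^ m * (ρ * (Cl X σ₀).card) := by
          apply mul_le_mul_of_nonneg_left hfirst (pow_nonneg hρ0 m)
      _ = ρ ^ (m + 1) * (Cl X σ₀).card := by ring

theorem hitF_le_one (R : U → Alg K) (σ : Equiv.Perm K) (T : ℕ) (B N : U → Finset K) :
    hitF R σ T B N ≤ 1 := by
  unfold hitF
  apply div_le_one_of_le₀ _ (Finset.sum_nonneg fun u _ => Nat.cast_nonneg _)
  refine Finset.sum_le_sum fun u _ => ?_
  exact mul_le_of_le_one_right (Nat.cast_nonneg _) (hitN_le_one _ _ _ _ _)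

/-- moments for a fixed memory -/
theorem hf_moment_univ (R : U → Alg K) (T s M c d : ℕ) (hs : 3 * T + 1 ≤ s) (hd1 : 1 ≤ d)
    (hd : ∀ u σ z, ∀ f ∈ Fs (R u) σ z T, f.natDegree ≤ d) (B N : U → Finset K)
    (hβ : 0 < ∑ u, (B u).card) (hB : ∀ w, (B w).Nonempty → ∑ u, (B u).card ≤ (N w).card)
    (hq : 2 * (s * s * (M + 1) * d) ≤ Fintype.card K)
    (hc : ∀ X : Finset K, X.card ≤ M * s → ∀ g : U → K[X], (∀ u, (g u).natDegree ≤ d) →
      ∑ u, (hits (g u) X (B u)).card ≤ c) :
    ∑ σ, hitF R σ T B N ^ M ≤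
        ((1 + (((2 * T + 1) * (Fintype.card U * (s * d) + c) + s * s * (M + 1) * d : ℕ) : ℝ) /
          ((∑ u, (B u).card : ℕ) : ℝ)) / 2) ^ M * Fintype.card (Equiv.Perm K) := by
  have h := hf_moment R T s M c d hs hd1 hd B N hβ hB hq hc M ∅ 1 (by simp)
  have h1 : Cl (∅ : Finset K) (1 : Equiv.Perm K) = Finset.univ := by
    ext σ
    simp [mem_Cl]
  rw [h1, Finset.card_univ] at h
  exact h

end GFM
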