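import Pool.Agent.H.MP_0427c5_lc.fm.Moment

/-!
# 3SUM-Indexing with multiplications and hash functions: pairs in bad position
-/

set_option autoImplicit false

namespace GFM

open Finset Polynomial
open scoped Classical

variable {K : Type} [Field K] [Fintype K]

/-- the elements of `B` at which the form `g` meets a form of `H` or a constant of `X` -/
noncomputable def met (g : K[X]) (H : Finset K[X]) (X B : Finset K) : Finset K :=
  B.filter fun z => ∃ f ∈ H ∪ X.image (fun x => (C x : K[X])), f ≠ g ∧ ev f z = ev g z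

/-- the elements of `B` which are mapped to `X` by the nonconstant form `g` -/
noncomputable def hits (g : K[X]) (X B : Finset K) : Finset K :=
  B.filter fun z => g.natDegree ≠ 0 ∧ ev g z ∈ X

theorem card_met (g : K[X]) (H : Finset K[X]) (X B : Finset K) {d : ℕ} (hg : g.natDegree ≤ d)
    (hH : ∀ f ∈ H, f.natDegree ≤ d) :
    (met g H X B).card ≤ H.card * d + (hits g X B).card := by
  have h1 : met g H X B ⊆ H.biUnion (fun f => (f - g).roots.toFinset) ∪ hits g X B := by
    intro z hz
    unfold met at hz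
    rw [Finset.mem_filter] at hz
    obtain ⟨hzB, f, hf, hne, he⟩ := hz
    rw [Finset.mem_union] at hf ⊢
    rcases hf with hf | hf
    · left
      exact Finset.mem_biUnion.mpr ⟨f, hf, mem_roots_sub hne he⟩
    · right
      obtain ⟨x, hx, rfl⟩ := Finset.mem_image.mp hf
      have hx' : ev (C x : K[X]) z = x := by simp [ev]
      unfold hits
      rw [Finset.mem_filter]
      refine ⟨hzB, fun h0 => hne ?_, ?_⟩
      · have h2 := ev_const h0 z
        rw [← he, hx'] at h2
        rw [h2]
        exact (eq_C_of_natDegree_eq_zero h0).symm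
      · rw [← he, hx']
        exact hx
  refine (Finset.card_le_card h1).trans ((Finset.card_union_le _ _).trans ?_)
  refine Nat.add_le_add_right (Finset.card_biUnion_le_card_mul _ _ d ?_) _
  intro f hf
  exact card_roots_sub (hH f hf) hg

/-- the pairs which lose general position in step `t + 1` -/
theorem bad_stepB (R : Alg K) (X : Finset K) (σ₀ : Equiv.Perm K) (t s x d : ℕ) (hs : 3 * t + 3 ≤ s)
    (hX : X.card ≤ x) (hd : ∀ σ z, ∀ f ∈ Fs R σ z (t + 1), f.natDegree ≤ d)
    (hq : 2 * (s * (2 * s + x) * d) ≤ Fintype.card K) (B : Finset K) :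
    Fintype.card K * ((Cl X σ₀ ×ˢ B).filter fun p =>
      Zok (Hs R p.1 p.2 t) X p.2 ∧ ¬ Zok (Fs R p.1 p.2 (t + 1)) X p.2).card ≤
      2 * ∑ p ∈ Cl X σ₀ ×ˢ (univ : Finset K),
        (met (gg R p.1 p.2 t) (Hs R p.1 p.2 t) X B).card := by
  set Bd := (Cl X σ₀ ×ˢ B).filter fun p =>
      Zok (Hs R p.1 p.2 t) X p.2 ∧ ¬ Zok (Fs R p.1 p.2 (t + 1)) X p.2 with hBd
  set U : Finset (Σ _ : Equiv.Perm K × K, K) :=
    Bd.sigma fun b => univ.filter fun y => Good (Hs R b.1 b.2 t) X b.2 y with hU
  set V : Finset (Σ _ : Equiv.Perm K × K, K) :=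
    (Cl X σ₀ ×ˢ (univ : Finset K)).sigma fun p =>
      met (gg R p.1 p.2 t) (Hs R p.1 p.2 t) X B with hV
  have hHs : ∀ σ z, (Hs R σ z t).card ≤ s := fun σ z => (card_Hs R σ z t).trans hs
  have h1 : Fintype.card K * Bd.card ≤ 2 * U.card := by
    rw [hU, Finset.card_sigma, Finset.mul_sum, mul_comm, ← smul_eq_mul,
      ← Finset.sum_const]
    refine Finset.sum_le_sum fun b hb => ?_
    rw [hBd, Finset.mem_filter] at hb
    exact card_good_ge hb.2.1 (hHs _ _) hX (fun f hf => hd _ _ f (Hs_sub_Fs R _ _ t hf)) hq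
  have h2 : V.card = ∑ p ∈ Cl X σ₀ ×ˢ (univ : Finset K),
      (met (gg R p.1 p.2 t) (Hs R p.1 p.2 t) X B).card := by
    rw [hV, Finset.card_sigma]
  have h3 : U.card ≤ V.card := by
    refine Finset.card_le_card_of_injOn
      (fun u => ⟨(u.1.1 * sw (Hs R u.1.1 u.1.2 t) u.1.2 u.2, u.2), u.1.2⟩) ?_ ?_
    · intro u hu
      have hu := Finset.mem_sigma.mp (Finset.mem_coe.mp hu)
      obtain ⟨hb, hg⟩ := hu
      have hg := (Finset.mem_filter.mp hg).2
      rw [Finset.mem_coe, hV, Finset.mem_sigma]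
      rw [hBd, Finset.mem_filter, Finset.mem_product] at hb
      refine ⟨Finset.mem_product.mpr ⟨mul_sw_mem hg hb.1.1, Finset.mem_univ _⟩, ?_⟩
      simp only
      rw [(transport_half hg).1, (transport_half hg).2]
      unfold met
      rw [Finset.mem_filter]
      refine ⟨hb.1.2, collide hb.2.1 ?_⟩
      rw [← Fs_succ]
      exact hb.2.2
    · intro u hu u' hu' he
      have hu := Finset.mem_sigma.mp (Finset.mem_coe.mp hu)
      have hu' := Finset.mem_sigma.mp (Finset.mem_coe.mp hu')
      obtain ⟨hb, hg⟩ := hu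
      obtain ⟨hb', hg'⟩ := hu'
      have hg := (Finset.mem_filter.mp hg).2
      have hg' := (Finset.mem_filter.mp hg').2
      obtain ⟨⟨σ, z⟩, y⟩ := u
      obtain ⟨⟨σ', z'⟩, y'⟩ := u'
      simp only [Sigma.mk.injEq, Prod.mk.injEq, heq_eq_eq] at he
      obtain ⟨⟨he1, he2⟩, he3⟩ := he
      simp only at hg hg'
      subst he2
      subst he3
      have hH : Hs R σ z t = Hs R σ' z t := by
        rw [← (transport_half hg).1, ← (transport_half hg').1, he1]
      have hσ : σ = σ' := by
        have e1 := eq_of_mul_sw σ hg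
        have e2 := eq_of_mul_sw σ' hg'
        rw [e1, e2, he1, hH]
      subst hσ
      rfl
  rw [← h2]
  omega

variable {U : Type} [Fintype U]

/-- the pairs which are not in general position after `T` steps, all classes together -/
theorem bad_totalB (R : U → Alg K) (X : Finset K) (σ₀ : Equiv.Perm K) (T s x c d : ℕ)
    (hs : 3 * T + 1 ≤ s) (hX : X.card ≤ x) (hd1 : 1 ≤ d)
    (hd : ∀ u σ z, ∀ f ∈ Fs (R u) σ z T, f.natDegree ≤ d)
    (hq : 2 * (s * (2 * s + x) * d) ≤ Fintype.card K)
    (B : U → Finset K) (hc : ∀ g : U → K[X], (∀ u, (g u).natDegree ≤ d) →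
      ∑ u, (hits (g u) X (B u)).card ≤ c) :
    ∑ u, ((Cl X σ₀ ×ˢ B u).filter fun p => ¬ Zok (Fs (R u) p.1 p.2 T) X p.2).card ≤
      (2 * T + 1) * (Fintype.card U * (s * d) + c) * (Cl X σ₀).card := by
  induction T with
  | zero =>
    have h1 : ∀ u, ((Cl X σ₀ ×ˢ B u).filter fun p =>
        ¬ Zok (Fs (R u) p.1 p.2 0) X p.2) ⊆ Cl X σ₀ ×ˢ hits (Polynomial.X : K[X]) X (B u) := by
      intro u p hp
      rw [Finset.mem_filter, Finset.mem_product] at hp
      rw [Finset.mem_product]
      refine ⟨hp.1.1, ?_⟩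
      unfold hits
      rw [Finset.mem_filter]
      refine ⟨hp.1.2, by rw [natDegree_X]; exact one_ne_zero, ?_⟩
      by_contra hpX
      apply hp.2
      rw [Fs_zero]
      have hn : nc ({Polynomial.X} : Finset K[X]) = {Polynomial.X} := by
        simp [nc, Finset.filter_singleton]
      refine ⟨?_, ?_⟩
      · rw [hn]
        intro f hf g hg _
        rw [Finset.mem_singleton] at hf hg
        rw [hf, hg]
      · rw [hn]
        intro f hf
        rw [Finset.mem_singleton] at hf
        subst hf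
        unfold cs
        rw [Finset.mem_union, Finset.mem_image]
        rintro (⟨k, hk, -⟩ | hc)
        · rw [Finset.mem_filter, Finset.mem_singleton] at hk
          obtain ⟨rfl, hk⟩ := hk
          rw [natDegree_X] at hk
          exact one_ne_zero hk
        · exact hpX hc
    calc _ ≤ ∑ u, (Cl X σ₀).card * (hits (Polynomial.X : K[X]) X (B u)).card := by
          refine Finset.sum_le_sum fun u _ => ?_
          exact (Finset.card_le_card (h1 u)).trans (by rw [Finset.card_product])
      _ = (Cl X σ₀).card * ∑ u, (hits (Polynomial.X : K[X]) X (B u)).card := by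
          rw [Finset.mul_sum]
      _ ≤ (Cl X σ₀).card * c := Nat.mul_le_mul_left _
          (hc (fun _ => Polynomial.X) fun _ => by rw [natDegree_X]; exact hd1)
      _ ≤ (Cl X σ₀).card * (Fintype.card U * (s * d) + c) := Nat.mul_le_mul_left _ (by omega)
      _ = _ := by ring
  | succ T ih =>
    have ih := ih (by omega) (fun u σ z f hf => hd u σ z f (Fs_mono (R u) σ z (Nat.le_succ T) hf))
    have hq0 : 0 < Fintype.card K := Fintype.card_pos
    have h2 : ∑ u, ((Cl X σ₀ ×ˢ B u).filter fun p =>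
        Zok (Hs (R u) p.1 p.2 T) X p.2 ∧ ¬ Zok (Fs (R u) p.1 p.2 (T + 1)) X p.2).card ≤
        2 * (Fintype.card U * (s * d) + c) * (Cl X σ₀).card := by
      have h4 : Fintype.card K * ∑ u, ((Cl X σ₀ ×ˢ B u).filter fun p =>
          Zok (Hs (R u) p.1 p.2 T) X p.2 ∧ ¬ Zok (Fs (R u) p.1 p.2 (T + 1)) X p.2).card ≤
          Fintype.card K * (2 * (Fintype.card U * (s * d) + c) * (Cl X σ₀).card) := by
        rw [Finset.mul_sum]
        calc _ ≤ ∑ u, 2 * ∑ p ∈ Cl X σ₀ ×ˢ (univ : Finset K),
              (met (gg (R u) p.1 p.2 T) (Hs (R u) p.1 p.2 T) X (B u)).card :=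
              Finset.sum_le_sum fun u _ => bad_stepB (R u) X σ₀ T s x d (by omega) hX (hd u) hq (B u)
          _ = 2 * ∑ p ∈ Cl X σ₀ ×ˢ (univ : Finset K), ∑ u,
              (met (gg (R u) p.1 p.2 T) (Hs (R u) p.1 p.2 T) X (B u)).card := by
              rw [← Finset.mul_sum, Finset.sum_comm]
          _ ≤ 2 * ∑ p ∈ Cl X σ₀ ×ˢ (univ : Finset K), (Fintype.card U * (s * d) + c) := by
              apply Nat.mul_le_mul_left
              refine Finset.sum_le_sum fun p _ => ?_
              have hgd : ∀ u, (gg (R u) p.1 p.2 T).natDegree ≤ d := fun u =>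
                hd u p.1 p.2 _ (by rw [Fs_succ]; exact Finset.mem_insert_self _ _)
              calc _ ≤ ∑ u, (s * d + (hits (gg (R u) p.1 p.2 T) X (B u)).card) := by
                    refine Finset.sum_le_sum fun u _ => ?_
                    refine (card_met _ _ _ _ (hgd u) (fun f hf =>
                      hd u p.1 p.2 f (Hs_sub_Fs (R u) p.1 p.2 T hf))).trans
                      (Nat.add_le_add_right (Nat.mul_le_mul_right _ ?_) _)
                    exact (card_Hs (R u) p.1 p.2 T).trans (by omega)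
                _ = Fintype.card U * (s * d) + ∑ u, (hits (gg (R u) p.1 p.2 T) X (B u)).card := by
                    rw [Finset.sum_add_distrib, Finset.sum_const, Finset.card_univ, smul_eq_mul]
                _ ≤ _ := Nat.add_le_add_left (hc (fun u => gg (R u) p.1 p.2 T) hgd) _
          _ = _ := by
              rw [Finset.sum_const, Finset.card_product, Finset.card_univ, smul_eq_mul]
              ring
      exact Nat.le_of_mul_le_mul_left h4 hq0
    have h3 : ∀ u, ((Cl X σ₀ ×ˢ B u).filter fun p =>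
        ¬ Zok (Fs (R u) p.1 p.2 (T + 1)) X p.2) ⊆
        ((Cl X σ₀ ×ˢ B u).filter fun p => ¬ Zok (Fs (R u) p.1 p.2 T) X p.2) ∪
        ((Cl X σ₀ ×ˢ B u).filter fun p =>
          Zok (Hs (R u) p.1 p.2 T) X p.2 ∧ ¬ Zok (Fs (R u) p.1 p.2 (T + 1)) X p.2) := by
      intro u p hp
      rw [Finset.mem_filter] at hp
      rw [Finset.mem_union, Finset.mem_filter, Finset.mem_filter]
      by_cases hz : Zok (Fs (R u) p.1 p.2 T) X p.2
      · exact Or.inr ⟨hp.1, zok_Hs hz, hp.2⟩
      · exact Or.inl ⟨hp.1, hz⟩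
    calc _ ≤ ∑ u, (((Cl X σ₀ ×ˢ B u).filter fun p => ¬ Zok (Fs (R u) p.1 p.2 T) X p.2).card +
          ((Cl X σ₀ ×ˢ B u).filter fun p =>
          Zok (Hs (R u) p.1 p.2 T) X p.2 ∧ ¬ Zok (Fs (R u) p.1 p.2 (T + 1)) X p.2).card) := by
          refine Finset.sum_le_sum fun u _ => ?_
          exact (Finset.card_le_card (h3 u)).trans (Finset.card_union_le _ _)
      _ ≤ (2 * T + 1) * (Fintype.card U * (s * d) + c) * (Cl X σ₀).card +
          2 * (Fintype.card U * (s * d) + c) * (Cl X σ₀).card := by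
          rw [Finset.sum_add_distrib]
          exact Nat.add_le_add ih h2
      _ = _ := by ring

/-- YES answers in `B` are at most YES answers in `N` plus the triples in bad position. -/
theorem yes_leB (R : Alg K) (X : Finset K) (σ₀ : Equiv.Perm K) (T s x d : ℕ) (hs : 3 * T + 1 ≤ s)
    (hX : X.card ≤ x) (hd : ∀ σ z, ∀ f ∈ Fs R σ z T, f.natDegree ≤ d) (B N : Finset K) :
    (∑ σ ∈ Cl X σ₀, (B.filter fun z => run R σ T z = true).card) * N.card ≤
      (∑ σ ∈ Cl X σ₀, (N.filter fun z => run R σ T z = true).card) * B.card +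
      (N.card * ((Cl X σ₀ ×ˢ B).filter fun p => ¬ Zok (Fs R p.1 p.2 T) X p.2).card +
        (Cl X σ₀).card * B.card * (s * (2 * s + x) * d)) := by
  set P1 : Finset ((Equiv.Perm K × K) × K) := ((Cl X σ₀ ×ˢ B) ×ˢ N).filter
    fun p => run R p.1.1 T p.1.2 = true with hP1
  set P2 : Finset ((Equiv.Perm K × K) × K) := ((Cl X σ₀ ×ˢ B) ×ˢ N).filter
    fun p => run R p.1.1 T p.2 = true with hP2
  set E : Finset (Equiv.Perm K × K) := (Cl X σ₀ ×ˢ B).filter
    fun p => ¬ Zok (Fs R p.1 p.2 T) X p.2 with hE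
  set G : Finset ((Equiv.Perm K × K) × K) := ((Cl X σ₀ ×ˢ B) ×ˢ N).filter
    fun p => Zok (Fs R p.1.1 p.1.2 T) X p.1.2 ∧ ¬ Good (Fs R p.1.1 p.1.2 T) X p.1.2 p.2 with hG
  have c1 : P1.card = (∑ σ ∈ Cl X σ₀, (B.filter fun z => run R σ T z = true).card) *
      N.card := by
    have : P1 = ((Cl X σ₀ ×ˢ B).filter fun p => run R p.1 T p.2 = true) ×ˢ N := by
      ext p
      simp only [hP1, Finset.mem_filter, Finset.mem_product]
      tauto
    rw [this, Finset.card_product]
    congr 1
    rw [Finset.card_filter, Finset.sum_product]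
    refine Finset.sum_congr rfl fun σ _ => ?_
    rw [Finset.card_filter]
  have c2 : P2.card = (∑ σ ∈ Cl X σ₀, (N.filter fun z => run R σ T z = true).card) *
      B.card := by
    rw [hP2, Finset.card_filter, Finset.sum_product, Finset.sum_product, Finset.sum_mul]
    refine Finset.sum_congr rfl fun σ _ => ?_
    change (∑ _y ∈ B, ∑ y ∈ N, if run R σ T y = true then 1 else 0) = _
    rw [Finset.card_filter, Finset.sum_const, smul_eq_mul, mul_comm]
  have cG : G.card ≤ (Cl X σ₀).card * B.card * (s * (2 * s + x) * d) := by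
    rw [hG, Finset.card_filter, Finset.sum_product]
    have h1 : ∀ p ∈ Cl X σ₀ ×ˢ B, (∑ y ∈ N, if Zok (Fs R p.1 p.2 T) X p.2 ∧
        ¬ Good (Fs R p.1 p.2 T) X p.2 y then 1 else 0) ≤ s * (2 * s + x) * d := by
      intro p _
      rw [← Finset.card_filter]
      by_cases hz : Zok (Fs R p.1 p.2 T) X p.2
      · have h2 : (N.filter fun y => Zok (Fs R p.1 p.2 T) X p.2 ∧
            ¬ Good (Fs R p.1 p.2 T) X p.2 y) ⊆
            univ.filter fun y => ¬ Good (Fs R p.1 p.2 T) X p.2 y := by
          intro y hy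
          rw [Finset.mem_filter] at hy ⊢
          exact ⟨Finset.mem_univ _, hy.2.2⟩
        refine (Finset.card_le_card h2).trans ((card_not_good hz (hd _ _)).trans ?_)
        have h3 : (Fs R p.1 p.2 T).card ≤ s := (card_Fs R p.1 p.2 T).trans hs
        exact Nat.mul_le_mul_right _ (Nat.mul_le_mul h3 (by omega))
      · have h2 : (N.filter fun y => Zok (Fs R p.1 p.2 T) X p.2 ∧
            ¬ Good (Fs R p.1 p.2 T) X p.2 y) = ∅ := by
          apply Finset.filter_eq_empty_iff.mpr
          intro y _ h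
          exact hz h.1
        rw [h2, Finset.card_empty]
        exact Nat.zero_le _
    refine (Finset.sum_le_card_nsmul _ _ _ h1).trans ?_
    rw [Finset.card_product, smul_eq_mul]
  have h1 : P1 ⊆ (P1.filter fun p => Good (Fs R p.1.1 p.1.2 T) X p.1.2 p.2) ∪
      ((E ×ˢ N) ∪ G) := by
    intro p hp
    have hp' := hp
    rw [hP1, Finset.mem_filter, Finset.mem_product, Finset.mem_product] at hp'
    rw [Finset.mem_union, Finset.mem_union]
    by_cases hg : Good (Fs R p.1.1 p.1.2 T) X p.1.2 p.2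
    · exact Or.inl (Finset.mem_filter.mpr ⟨hp, hg⟩)
    by_cases hz : Zok (Fs R p.1.1 p.1.2 T) X p.1.2
    · refine Or.inr (Or.inr ?_)
      rw [hG, Finset.mem_filter, Finset.mem_product, Finset.mem_product]
      exact ⟨hp'.1, hz, hg⟩
    · refine Or.inr (Or.inl ?_)
      rw [Finset.mem_product, hE, Finset.mem_filter, Finset.mem_product]
      exact ⟨⟨hp'.1.1, hz⟩, hp'.1.2⟩
  have h2 : (P1.filter fun p => Good (Fs R p.1.1 p.1.2 T) X p.1.2 p.2).card ≤ P2.card := by
    refine Finset.card_le_card_of_injOn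
      (fun p => ((p.1.1 * sw (Fs R p.1.1 p.1.2 T) p.1.2 p.2, p.1.2), p.2)) ?_ ?_
    · intro p hp
      rw [Finset.mem_coe, Finset.mem_filter, hP1, Finset.mem_filter, Finset.mem_product,
        Finset.mem_product] at hp
      obtain ⟨⟨⟨⟨h3, h4⟩, h5⟩, h6⟩, hg⟩ := hp
      rw [Finset.mem_coe, hP2, Finset.mem_filter, Finset.mem_product, Finset.mem_product]
      refine ⟨⟨⟨mul_sw_mem hg h3, h4⟩, h5⟩, ?_⟩
      simp only
      rw [(transport_run hg).1, h6]
    · intro p hp p' hp' he
      rw [Finset.mem_coe, Finset.mem_filter] at hp hp'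
      obtain ⟨⟨σ, z⟩, y⟩ := p
      obtain ⟨⟨σ', z'⟩, y'⟩ := p'
      simp only [Prod.mk.injEq] at he
      obtain ⟨⟨he1, rfl⟩, rfl⟩ := he
      have hg := hp.2
      have hg' := hp'.2
      simp only at hg hg'
      have hH : Fs R σ z T = Fs R σ' z T := by
        rw [← (transport_run hg).2, ← (transport_run hg').2, he1]
      have hσ : σ = σ' := by
        have e1 := eq_of_mul_sw σ hg
        have e2 := eq_of_mul_sw σ' hg'
        rw [e1, e2, he1, hH]
      subst hσ
      rfl
  rw [← c1, ← c2]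
  have h3 := Finset.card_le_card h1
  have h4 := Finset.card_union_le (P1.filter fun p => Good (Fs R p.1.1 p.1.2 T) X p.1.2 p.2)
    ((E ×ˢ N) ∪ G)
  have h5 := Finset.card_union_le (E ×ˢ N) G
  rw [Finset.card_product] at h5
  have h6 : E.card * N.card = N.card * E.card := mul_comm _ _
  omega

end GFM
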