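import Pool.Agent.H.MP_0427c5_lc.fm.Core

/-!
# 3SUM-Indexing with multiplications and random hash functions: the theorem
-/

set_option autoImplicit false

namespace GFM

open Finset
open scoped Classical

variable {K W : Type} [Field K] [Fintype K] [Fintype W]

/-- the families which agree with `h` outside of `B` -/
noncomputable def fams (B : Finset K) {M : ℕ} (h : Fin M → K → W) : Finset (Fin M → K → W) :=
  univ.filter fun f => ∀ s x, x ∉ B → f s x = h s x

theorem fams_eq (B : Finset K) {M : ℕ} (h : Fin M → K → W) :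
    fams B h = Fintype.piFinset fun s => ext B (h s) := by
  ext f
  unfold fams
  rw [Finset.mem_filter, Fintype.mem_piFinset]
  constructor
  · intro h1 s
    exact mem_ext.mpr (h1.2 s)
  · intro h1
    exact ⟨Finset.mem_univ _, fun s => mem_ext.mp (h1 s)⟩

theorem card_fams (B : Finset K) {M : ℕ} (h : Fin M → K → W) :
    (fams B h).card = Fintype.card W ^ (M * B.card) := by
  rw [fams_eq, Fintype.card_piFinset, Finset.prod_congr rfl fun s _ => card_ext B (h s),
    Finset.prod_const, Finset.card_univ, Fintype.card_fin, ← pow_mul, mul_comm]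

theorem rh_result (B : Finset K) {M : ℕ} (h : Fin M → K → W)
    (hlarge : ∀ s w, B.card ≤ (univ.filter fun x => x ∉ B ∧ h s x = w).card)
    (Q : (Fin M → K → W) → Prop)
    (hQ : ∀ f : Fin M → K → W, (∀ s w, B.card ≤ (noC (f s) B w).card) →
      (∀ s, ¬ AnyMany B (Nat.clog 2 (Fintype.card K)) (Nat.clog 2 M) (f s)) → Q f) :
    512 * ((fams B h).filter fun f => ¬ Q f).card ≤ (fams B h).card := by
  rw [card_fams]
  refine le_trans (Nat.mul_le_mul_left _ (Finset.card_le_card ?_)) (few_fam B h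
    (Nat.clog 2 (Fintype.card K)) (Nat.clog 2 M) (Nat.le_pow_clog (by norm_num) _)
    (Nat.le_pow_clog (by norm_num) _))
  intro f hf
  rw [Finset.mem_filter] at hf ⊢
  refine ⟨by rw [← fams_eq]; exact hf.1, ?_⟩
  by_contra hcon
  push Not at hcon
  apply hf.2
  refine hQ f ?_ hcon
  have hff : ∀ s x, x ∉ B → f s x = h s x := by
    have := hf.1
    unfold fams at this
    rw [Finset.mem_filter] at this
    exact this.2
  intro s w
  refine (hlarge s w).trans (Finset.card_le_card fun x hx => ?_)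
  rw [Finset.mem_filter] at hx
  rw [mem_noC]
  exact ⟨hx.2.1, by rw [hff s x hx.2.1]; exact hx.2.2⟩

/-- the degree bound for the actual runs is enough -/
theorem rh_core_runs [DecidableEq K] [DecidableEq W] (B : Finset K) {M : ℕ} (h : Fin M → K → W)
    (hlarge : ∀ i w, B.card ≤ (noC (h i) B w).card) (L l d : ℕ) (hL : 1 ≤ L) (hd1 : 1 ≤ d)
    (hcov : ∀ i, ¬ Many B L l d (h i))
    {S T : ℕ} {Ω : Type} [Fintype Ω] [Nonempty Ω]
    (D : HashStructure K W M S Ω) (hD : DegreeAtMost h D T d) (γ : ℝ) (hγ : 0 < γ)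
    (herr : avgErr h D T B ≤ 1 / 2 - γ) :
    γ ^ 2 * B.card ≤ 80 * (S + 1 + Fintype.card W + l) * L * (T + 1) ^ 2 * d := by
  let D' : HashStructure K W M S Ω := ⟨D.pre, D.seed, fun ω μ w => cap (D.query ω μ w) d⟩
  have h1 : ∀ (ω : Ω) (σ : Equiv.Perm K) (z : K),
      run (cap (D.query ω (D.pre ω σ) (h (D.seed ω (D.pre ω σ)) z)) d) σ T z =
      run (D.query ω (D.pre ω σ) (h (D.seed ω (D.pre ω σ)) z)) σ T z :=
    fun ω σ z => cap_run (hD ω σ z)
  have h2 : ∀ (ω : Ω) (σ : Equiv.Perm K),
      hashErr (h (D'.seed ω (D'.pre ω σ))) (D'.query ω (D'.pre ω σ)) σ T B =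
      hashErr (h (D.seed ω (D.pre ω σ))) (D.query ω (D.pre ω σ)) σ T B := by
    intro ω σ
    unfold hashErr
    congr 1
    refine Finset.sum_congr rfl fun z _ => ?_
    have e1 : run (D'.query ω (D'.pre ω σ) (h (D'.seed ω (D'.pre ω σ)) z)) σ T z =
        run (D.query ω (D.pre ω σ) (h (D.seed ω (D.pre ω σ)) z)) σ T z := h1 ω σ z
    have e2 : ((others (h (D'.seed ω (D'.pre ω σ))) B z).filter fun x =>
        run (D'.query ω (D'.pre ω σ) (h (D'.seed ω (D'.pre ω σ)) z)) σ T x = true) =
        ((others (h (D.seed ω (D.pre ω σ))) B z).filter fun x =>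
        run (D.query ω (D.pre ω σ) (h (D.seed ω (D.pre ω σ)) z)) σ T x = true) := by
      refine Finset.filter_congr fun x hx => ?_
      unfold others at hx
      rw [Finset.mem_filter] at hx
      have e3 : h (D.seed ω (D.pre ω σ)) x = h (D.seed ω (D.pre ω σ)) z := hx.2.2
      have e4 := h1 ω σ x
      rw [e3] at e4
      have e5 : run (D'.query ω (D'.pre ω σ) (h (D'.seed ω (D'.pre ω σ)) z)) σ T x =
          run (D.query ω (D.pre ω σ) (h (D.seed ω (D.pre ω σ)) z)) σ T x := e4
      rw [e5]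
    rw [e1, e2]
  have h3 : avgErr h D' T B = avgErr h D T B := by
    unfold avgErr
    congr 1
    exact Finset.sum_congr rfl fun ω _ => Finset.sum_congr rfl fun σ _ => h2 ω σ
  exact rh_core B h hlarge L l d hL hd1 hcov D' (fun ω μ w => cap_low _ hd1) γ hγ
    (by rw [h3]; exact herr)

/-- the degree is at least one -/
theorem one_le_deg [DecidableEq K] {M S T d : ℕ} {Ω : Type} [Nonempty Ω] {h : Fin M → K → W}
    {D : HashStructure K W M S Ω} (hD : DegreeAtMost h D T d) : 1 ≤ d := by
  obtain ⟨ω₀⟩ := ‹Nonempty Ω›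
  have h1 : ∀ (R : Alg K) (ζ : K) (l : List K), (ζ, 1) ∈ degs R ζ l := by
    intro R ζ l
    induction l with
    | nil => exact List.mem_singleton_self _
    | cons a l ih =>
      rw [degs_cons]
      exact List.mem_cons_of_mem _ ih
  exact hD ω₀ 1 0 _ (h1 _ _ _)

end GFM
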